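import Pool.Agent.MP_4d76c1_gt.Gam.St

set_option autoImplicit false

namespace Pool.Agent.MP_4d76c1_gt.Gam

section

open Filter Topology Set

variable {n : ℕ} {X : Type} [MetricSpace X] [Dk n X]

theorem cau_FI {D : ℝ → E n} {φ : ℝ → ℝ} {A a : ℝ} {L : Filter ℝ} [L.NeBot]
    (h : ∀ s t, dist (D s) (D t) ≤ A * |φ s - φ t|) (hφ : Tendsto φ L (𝓝 a)) :
    ∃ b, Tendsto D L (𝓝 b) := by
  refine cauchy_map_iff_exists_tendsto.1 (cauchy_map_iff'.2
    (tendsto_uniformity_iff_dist_tendsto_zero.2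
      (squeeze_zero (fun _ => dist_nonneg) (fun p => h p.1 p.2) ?_)))
  simpa using (((hφ.comp tendsto_fst).sub (hφ.comp tendsto_snd)).abs).const_mul A

theorem lim_FI (h : Sp n X) {v l₀ : E n} {Ψ : X → E n} {A : ℝ} (f : Fr v l₀ Ψ A)
    (p : ℕ → ℝ → X) (hp : ∀ m, Isometry (p m))
    (hz : ∀ s t, Tendsto (fun m => De v Ψ (p m) s - De v Ψ (p m) t) UU (𝓝 0)) :
    ∃ (k : ℕ → G n X) (c : ℝ → X), Zer v Ψ c ∧
      ∀ t, Tendsto (fun m => k m +ᵥ p m t) UU (𝓝 (c t)) := by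
  obtain ⟨k, c, -, hc⟩ := h.lim p fun m => (hp m).lipschitz
  obtain ⟨K, hK⟩ := f.isEqv.1
  have hΨ := fun t => (hK.continuous.tendsto _).comp (hc t)
  refine ⟨k, c, ⟨Isometry.of_dist_eq fun s t => ?_, fun s t => sub_eq_zero.1 ?_⟩, hc⟩
  · exact tendsto_nhds_unique ((hc s).dist (hc t))
      (tendsto_const_nhds.congr fun m => by rw [h.iso, (hp m).dist_eq])
  · refine tendsto_nhds_unique (((hΨ s).const_sub (s • v)).sub ((hΨ t).const_sub (t • v)))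
      ((hz s t).congr fun m => ?_)
    simp only [De, Function.comp, f.eqv]
    abel

theorem near_FI (h : Sp n X) {v l₀ : E n} {Ψ : X → E n} {A : ℝ} (f : Fr v l₀ Ψ A) {c : ℝ → X}
    (hc : Isometry c) (s : ℕ → ℝ) {a : E n}
    (ha : ∀ t, Tendsto (fun m => De v Ψ c (t + s m)) UU (𝓝 a)) {ε : ℝ} (hε : 0 < ε) :
    ∃ m c', Zer v Ψ c' ∧ dist (c (s m)) (c' 0) < ε := by
  obtain ⟨k, c', z, hk⟩ := lim_FI h f (fun m t => c (t + s m))
    (fun m => Isometry.of_dist_eq fun x y => by rw [hc.dist_eq, dist_add_right]) fun x y => by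
      refine (sub_self a ▸ (ha x).sub (ha y)).congr fun m => ?_
      simp only [De, add_smul]
      abel
  obtain ⟨m, hm⟩ := (Metric.tendsto_nhds.1 (hk 0) ε hε).exists
  refine ⟨m, fun t => -k m +ᵥ c' (t + 0), f.zer_rel h ⟨-k m, 0, fun _ => rfl⟩ z, ?_⟩
  rw [← h.iso (k m), vadd_neg_vadd]
  simpa using hm

theorem fi_pf : FI_st n X := by
  intro h v l₀ Ψ A f c
  refine ⟨fun hc ⟨M, hM⟩ => ?_, ?_⟩
  · have hm := f.De_mono hc.lipschitz
    have hb : ∀ s t, s ≤ t → l₀ ⬝ᵥ De v Ψ c t - l₀ ⬝ᵥ De v Ψ c s ≤ M := fun s t e => by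
      have := hM s t e
      rw [f.dot_De f.one, f.dot_De f.one]
      linarith
    have hM0 : 0 ≤ M := by simpa using hb 0 0 le_rfl
    have hd : ∀ s t, dist (De v Ψ c s) (De v Ψ c t) ≤
        A * |l₀ ⬝ᵥ De v Ψ c s - l₀ ⬝ᵥ De v Ψ c t| := fun s t => by
      rcases le_total s t with e | e
      · rw [dist_comm, dist_eq_norm, abs_sub_comm]
        exact (f.De_le hc.lipschitz e).trans (mul_le_mul_of_nonneg_left (le_abs_self _) f.pos.le)
      · rw [dist_eq_norm]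
        exact (f.De_le hc.lipschitz e).trans (mul_le_mul_of_nonneg_left (le_abs_self _) f.pos.le)
    obtain ⟨a, ha⟩ := cau_FI hd (tendsto_atBot_ciInf hm ⟨l₀ ⬝ᵥ De v Ψ c 0 - M, by
      rintro _ ⟨t, rfl⟩
      rcases le_total t 0 with e | e
      · linarith [hb t 0 e]
      · linarith [hm e]⟩)
    obtain ⟨b, hb⟩ := cau_FI hd (tendsto_atTop_ciSup hm ⟨l₀ ⬝ᵥ De v Ψ c 0 + M, by
      rintro _ ⟨t, rfl⟩
      rcases le_total t 0 with e | e
      · linarith [hm e]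
      · linarith [hb 0 t e]⟩)
    exact ⟨b - a, hc, a, b, ha, hb, rfl⟩
  · rintro y ⟨hc, a, b, ha, hb, -⟩ ε T hε
    have hn : Tendsto (fun m : ℕ => (m : ℝ)) UU atTop := tendsto_natCast_atTop_atTop.mono_left UU_le
    constructor
    · obtain ⟨m, c', hz⟩ := near_FI h f hc (fun m => T + -(m : ℝ)) (fun t => ha.comp
        (tendsto_atBot_add_const_left _ t (tendsto_atBot_add_const_left _ T
          (tendsto_neg_atTop_atBot.comp hn)))) hε
      exact ⟨_, by simp, c', hz⟩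
    · obtain ⟨m, c', hz⟩ := near_FI h f hc (fun m => T + (m : ℝ)) (fun t => hb.comp
        (tendsto_atTop_add_const_left _ t (tendsto_atTop_add_const_left _ T hn))) hε
      exact ⟨_, by simp, c', hz⟩

theorem zc_pf : ZC_st n X := by
  intro h v l₀ Ψ A f T τ hτ
  constructor
  · refine (hτ.fin.countable.biUnion (t := fun t _ =>
      {z | ∃ c, Zer v Ψ c ∧ τ c = t ∧ z = Ψ (c 0) - (l₀ ⬝ᵥ Ψ (c 0)) • v}) fun t _ => ?_).mono ?_
    · by_cases e : ∃ c₀, Zer v Ψ c₀ ∧ τ c₀ = t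
      · obtain ⟨c₀, z₀, e⟩ := e
        refine (countable_range fun k : Fin n → ℤ => Ψ (c₀ 0) + (fun i => (k i : ℝ)) -
          (l₀ ⬝ᵥ Ψ (c₀ 0) + l₀ ⬝ᵥ fun i => (k i : ℝ)) • v).mono ?_
        rintro _ ⟨c, z, e', rfl⟩
        obtain ⟨k, b, r⟩ := hτ.rel c₀ c z₀.1 z.1 (e.trans e'.symm)
        refine ⟨Dk.φ k, ?_⟩
        change Ψ (c₀ 0) + cv k - (l₀ ⬝ᵥ Ψ (c₀ 0) + l₀ ⬝ᵥ cv k) • v = _
        simp only [r, f.eqv, z₀.eq (0 + b), dotProduct_add, dotProduct_smul, f.one, smul_eq_mul,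
          mul_one, add_smul]
        abel
      · refine countable_empty.mono ?_
        rintro _ ⟨c, z, e', -⟩
        exact e ⟨c, z, e'⟩
    · rintro _ ⟨c, z, rfl⟩
      exact mem_iUnion₂.2 ⟨τ c, ⟨c, z.1, rfl⟩, c, z, rfl, rfl⟩
  · intro z z' hz hl
    choose c hc e using hz
    have hp : ∀ m, Zer v Ψ fun t => c m (t + -(l₀ ⬝ᵥ Ψ (c m 0))) := fun m =>
      f.zer_rel h ⟨0, _, fun _ => (zero_vadd _ _).symm⟩ (hc m)
    obtain ⟨k, c', z₀, hk⟩ := lim_FI h f _ (fun m => (hp m).1) fun s t =>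
      tendsto_const_nhds.congr fun m => (sub_eq_zero.2 ((hp m).2 s t)).symm
    obtain ⟨K, hK⟩ := f.isEqv.1
    have h1 : Tendsto (fun m => cv (k m)) UU (𝓝 (Ψ (c' 0) - z')) :=
      (((hK.continuous.tendsto _).comp (hk 0)).sub hl).congr fun m => by
        simp only [Function.comp, f.eqv, e m]
        rw [(hc m).eq (0 + _), zero_add, neg_smul]
        abel
    choose k₁ hk₁ using fun i => Int.isClosedEmbedding_coe_real.isClosed_range.mem_of_tendsto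
      (tendsto_pi_nhds.1 h1 i) (Eventually.of_forall fun m => ⟨Dk.φ (k m) i, rfl⟩)
    obtain ⟨k₀, hk₀⟩ := cv_surj (X := X) k₁
    have h2 : cv k₀ = Ψ (c' 0) - z' := hk₀.trans (funext hk₁)
    have h3 : l₀ ⬝ᵥ z' = 0 := tendsto_nhds_unique (((cont_dot l₀).tendsto _).comp hl)
      (tendsto_const_nhds.congr fun m => by
        simp only [Function.comp, e m, dotProduct_sub, dotProduct_smul, f.one, smul_eq_mul, mul_one,
          sub_self])
    refine ⟨fun t => -k₀ +ᵥ c' (t + 0), f.zer_rel h ⟨-k₀, 0, fun _ => rfl⟩ z₀, ?_⟩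
    have h4 : Ψ (-k₀ +ᵥ c' (0 + 0)) = z' := by
      rw [f.eqv, cv_neg, h2, add_zero]
      abel
    simp only [h4, h3, zero_smul, sub_zero]

end

section

open Filter Topology Set

variable {n : Nat} {X : Type} [MetricSpace X] [Dk n X]

theorem glue_PE {f g : ℝ → X} (hf : LipschitzWith 1 f) (hg : LipschitzWith 1 g) {a : ℝ}
    (h : f a = g a) : LipschitzWith 1 fun t => if t ≤ a then f t else g t := by
  have key : ∀ s t, s ≤ t →
      dist (if s ≤ a then f s else g s) (if t ≤ a then f t else g t) ≤ t - s := by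
    intro s t hst
    by_cases ht : t ≤ a
    · rw [if_pos ht, if_pos (hst.trans ht)]
      exact lip_path hf hst
    · rw [if_neg ht]
      by_cases hs : s ≤ a
      · rw [if_pos hs]
        have h1 := lip_path hf hs
        have h2 := lip_path hg (not_le.1 ht).le
        have h3 := dist_triangle (f s) (g a) (g t)
        rw [h] at h1
        linarith
      · rw [if_neg hs]
        exact lip_path hg hst
  refine LipschitzWith.of_dist_le_mul fun s t => ?_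
  rw [NNReal.coe_one, one_mul, Real.dist_eq]
  rcases le_total s t with e | e
  · exact (key s t e).trans (by rw [abs_sub_comm]; exact le_abs_self _)
  · rw [dist_comm]
    exact (key t s e).trans (le_abs_self _)

theorem bu_pf : BU_st X := by
  intro γ hγ
  have h0 : ∀ T t : ℝ, T + t ≤ dist (γ (-T)) (γ t) := fun T t => by
    rw [hγ.dist_eq, Real.dist_eq]
    linarith [neg_le_abs (-T - t)]
  have hb : ∀ x : X, BddBelow (range fun T : ℝ => dist (γ (-T)) x - T) := fun x => by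
    refine ⟨-dist (γ 0) x, ?_⟩
    rintro _ ⟨T, rfl⟩
    have h1 := h0 T 0
    have h2 := dist_triangle_right (γ (-T)) (γ 0) x
    simp only
    linarith
  refine ⟨fun x => ⨅ T : ℝ, (dist (γ (-T)) x - T), ?_, fun t => le_antisymm ?_ ?_,
    fun x ε hε => ?_⟩
  · refine LipschitzWith.of_le_add fun x y => ?_
    rw [← sub_le_iff_le_add]
    refine le_ciInf fun T => ?_
    have h1 := ciInf_le (hb x) T
    have h2 := dist_triangle (γ (-T)) y x
    rw [dist_comm y x] at h2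
    linarith
  · have h1 := ciInf_le (hb (γ t)) (-t)
    simpa using h1
  · exact le_ciInf fun T => by linarith [h0 T t]
  · obtain ⟨T, hT⟩ := exists_lt_of_ciInf_lt
      (lt_add_of_pos_right (⨅ T : ℝ, (dist (γ (-T)) x - T)) hε)
    exact ⟨T, by linarith⟩

theorem pe_pf : PE_st n X := by
  rintro h γ c b hγ hc ⟨hb1, hb2, hb3⟩ ⟨C, hC⟩ ε hε
  have hbd : BddBelow (range fun S : Ici (0 : ℝ) => b (c S) - S) :=
    ⟨-C, by rintro _ ⟨S, rfl⟩; exact hC S S.2⟩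
  obtain ⟨⟨S, hS⟩, hS1⟩ := exists_lt_of_ciInf_lt
    (lt_add_of_pos_right (⨅ S : Ici (0 : ℝ), (b (c S) - S)) (half_pos hε))
  have hS0 : 0 ≤ S := hS
  have hS2 : ∀ S', 0 ≤ S' → b (c S) - S < b (c S') - S' + ε / 2 := fun S' h' => by
    have := ciInf_le hbd ⟨S', h'⟩
    simp only at this hS1
    linarith
  obtain ⟨T, hT⟩ := hb3 (c S) _ (half_pos hε)
  obtain ⟨q, hq, hq0, hq1⟩ := h.len _ _ _ hT
  have hL : 0 < b (c S) + T + ε / 2 := dist_nonneg.trans_lt hT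
  obtain ⟨a', ha'⟩ : ∃ a', a' = b (c S) + ε / 2 := ⟨_, rfl⟩
  have l1 : LipschitzWith 1 fun t => if t ≤ a' then q (t + T) else c (t + (S - a')) :=
    glue_PE (lip_shift hq T) (lip_shift hc (S - a')) (by
      rw [show a' + T = b (c S) + T + ε / 2 by linarith, hq1, add_sub_cancel])
  have l2 := glue_PE (a := -T) hγ.lipschitz l1 (by
    rw [if_pos (by linarith), neg_add_cancel, hq0])
  obtain ⟨p, hp, e1, e2⟩ : ∃ p : ℝ → X, LipschitzWith 1 p ∧ (∀ t ≤ -T, p t = γ t) ∧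
      ∀ t ≥ a', p t = c (S + t - a') := by
    refine ⟨_, l2, fun t ht => if_pos ht, fun t ht => ?_⟩
    have ht' : a' ≤ t := ht
    rw [if_neg (by linarith)]
    rcases ht'.eq_or_lt with e | e
    · rw [if_pos e.ge, ← e, show a' + T = b (c S) + T + ε / 2 by linarith, hq1,
        add_sub_cancel_right]
    · rw [if_neg (not_le.2 e)]
      congr 1
      ring
  have hm : ∀ s t, s ≤ t → b (p t) - b (p s) ≤ t - s :=
    fun s t e => (lip_sub hb1 _ _).trans (lip_path hp e)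
  refine ⟨p, -T, a', S, hp, hS0, e1, e2, fun t => ⟨?_, ?_⟩⟩
  · have k1 := hm t (max t a') (le_max_left _ _)
    have k2 := le_max_right t a'
    have k3 := hS2 (S + max t a' - a') (by linarith)
    rw [e2 _ k2] at k1
    linarith
  · have k1 := hm (min t (-T)) t (min_le_left _ _)
    rw [e1 _ (min_le_right _ _), hb2] at k1
    linarith

end

section

open Filter Topology Set

variable {n : ℕ} {X : Type} [MetricSpace X] [Dk n X]

theorem last_KL {g : ℝ → ℝ} (hg : Continuous g) {η a a' : ℝ} (ha : η ≤ g a)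
    (ha' : ∀ t ≥ a', g t < η) : ∃ t₀, g t₀ = η ∧ ∀ t ≥ t₀, g t ≤ η := by
  have hb : BddAbove {t | η ≤ g t} :=
    ⟨a', fun t ht => le_of_not_gt fun e => (ha' t e.le).not_ge ht⟩
  have hm := (isClosed_le continuous_const hg).csSup_mem ⟨a, ha⟩ hb
  have h1 : Ioi (sSup {t | η ≤ g t}) ⊆ {t | g t ≤ η} := fun t ht =>
    show g t ≤ η from le_of_not_gt fun e => (le_csSup hb (show t ∈ {t | η ≤ g t} from e.le)).not_gt ht
  have h2 := (isClosed_le hg continuous_const).closure_subset_iff.2 h1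
  rw [closure_Ioi] at h2
  exact ⟨_, le_antisymm (h2 (mem_Ici.2 le_rfl)) hm, fun t ht => h2 ht⟩

/-- the transverse part -/
def Nt_KL (v l₀ : E n) (Ψ : X → E n) (x : X) : E n := Ψ x - (l₀ ⬝ᵥ Ψ x) • v

section
variable {v l₀ : E n} {Ψ : X → E n} {A : ℝ} (f : Fr v l₀ Ψ A)
include f

theorem zdot_KL {c : ℝ → X} (hc : Zer v Ψ c) {l : E n} (hl : l ⬝ᵥ v = 1) (t : ℝ) :
    l ⬝ᵥ Ψ (c t) = l ⬝ᵥ Ψ (c 0) + t := by
  have _ := f
  rw [hc.eq t, dotProduct_add, dotProduct_smul, hl, smul_eq_mul, mul_one]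

theorem Nz_KL {c : ℝ → X} (hc : Zer v Ψ c) (t : ℝ) : Nt_KL v l₀ Ψ (c t) = Nt_KL v l₀ Ψ (c 0) := by
  rw [Nt_KL, Nt_KL, zdot_KL f hc f.one, hc.eq t, add_smul]; abel

theorem Ndot_KL {l : E n} (hl : l ⬝ᵥ v = 1) (x : X) :
    (l - l₀) ⬝ᵥ Nt_KL v l₀ Ψ x = l ⬝ᵥ Ψ x - l₀ ⬝ᵥ Ψ x := by
  simp only [Nt_KL, sub_dotProduct, dotProduct_sub, dotProduct_smul, hl, f.one, smul_eq_mul]
  ring

theorem Ncont_KL : Continuous (Nt_KL v l₀ Ψ) := by
  obtain ⟨K, hK⟩ := f.isEqv.1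
  exact hK.continuous.sub (((cont_dot l₀).comp hK.continuous).smul continuous_const)

theorem Nadd_KL (k : G n X) (x y : X) : Nt_KL v l₀ Ψ (k +ᵥ x) =
    Nt_KL v l₀ Ψ x - Nt_KL v l₀ Ψ y + Nt_KL v l₀ Ψ (k +ᵥ y) := by
  simp only [Nt_KL, f.eqv, dotProduct_add, add_smul]; abel

theorem mu_KL {γ : ℝ → X} (hγ : Zer v Ψ γ) {b : X → ℝ} (hb : Bus γ b) (x : X) :
    l₀ ⬝ᵥ Ψ x - l₀ ⬝ᵥ Ψ (γ 0) ≤ b x := by
  refine le_of_forall_pos_le_add fun ε hε => ?_
  obtain ⟨T, hT⟩ := hb.2.2 x ε hε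
  have h1 := f.le (γ (-T)) x
  rw [zdot_KL f hγ f.one] at h1
  linarith

theorem step_KL (hFI : FI_st n X) (hZC : ZC_st n X) (hPE : PE_st n X) (h : Sp n X)
    {T : Type} {τ : (ℝ → X) → T} (hτ : Fint n τ) {γ : ℝ → X} (hγ : Zer v Ψ γ) {b : X → ℝ}
    (hb : Bus γ b) {l : E n} (hl : l ⬝ᵥ v = 1) (hy : ∀ c y, Fi v Ψ c y → 0 ≤ l ⬝ᵥ y) {δ : ℝ}
    (hδ : 0 < δ) (hδ' : ∀ c y, Fi v Ψ c y → ¬ Zer v Ψ c → δ ≤ l₀ ⬝ᵥ y) {c : ℝ → X}
    (hc : Zer v Ψ c) (hβ : b (c 0) < l ⬝ᵥ Ψ (c 0) - l ⬝ᵥ Ψ (γ 0)) :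
    ∃ c', Zer v Ψ c' ∧ b (c' 0) < l ⬝ᵥ Ψ (c' 0) - l ⬝ᵥ Ψ (γ 0) ∧
      b (c' 0) - l₀ ⬝ᵥ Ψ (c' 0) ≤ b (c 0) - l₀ ⬝ᵥ Ψ (c 0) - δ / 2 := by
  have hμ := mu_KL f hγ hb
  obtain ⟨hZ1, hZ2⟩ := hZC h v l₀ Ψ A f T τ hτ
  obtain ⟨K, hK⟩ := f.isEqv.lip_dot l
  obtain ⟨K', hK'⟩ := f.isEqv.1
  obtain ⟨θ, hθ⟩ : ∃ θ, θ = l ⬝ᵥ Ψ (c 0) - l ⬝ᵥ Ψ (γ 0) - b (c 0) := ⟨_, rfl⟩
  have hθ0 : 0 < θ := by linarith
  have hz : Nt_KL v l₀ Ψ (γ 0) - Nt_KL v l₀ Ψ (c 0) ≠ 0 := fun e => by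
    have h1 := Ndot_KL f hl (γ 0)
    have h2 := Ndot_KL f hl (c 0)
    rw [sub_eq_zero.1 e] at h1
    linarith [hμ (c 0)]
  have hL : 0 < n * ‖l - l₀‖ + 1 := by positivity
  obtain ⟨η, hηD, hη0, hη1⟩ := ((hZ1.image2 hZ1 fun a b => ‖a - b‖).dense_compl ℝ).exists_between
    (lt_min (norm_pos_iff.2 hz) (div_pos hθ0 (mul_pos four_pos hL)))
  obtain ⟨hη1, hη2⟩ := lt_min_iff.1 hη1
  have hη3 : n * ‖l - l₀‖ * η ≤ θ / 4 := by
    rw [lt_div_iff₀ (mul_pos four_pos hL)] at hη2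
    nlinarith
  have hcb : ∀ t, 0 ≤ t → b (c t) ≤ b (c 0) + t := fun t ht => by
    have h1 := lip_sub hb.1 (c 0) (c t)
    have h2 := lip_path hc.1.lipschitz ht
    linarith
  choose p a a' S hp hS hpa hpa' hpb using fun m : ℕ => hPE h γ c b hγ.1 hc.1.lipschitz hb
    ⟨l₀ ⬝ᵥ Ψ (γ 0) - l₀ ⬝ᵥ Ψ (c 0), fun S _ => by
      have h1 := hμ (c S)
      rw [zdot_KL f hc f.one] at h1
      linarith⟩ (1 / (m + 1)) Nat.one_div_pos_of_nat
  choose t₀ ht₀ ht₁ using fun m : ℕ => last_KL (η := η) (a := a m) (a' := a' m)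
    (g := fun t => ‖Nt_KL v l₀ Ψ (p m t) - Nt_KL v l₀ Ψ (c 0)‖)
    ((((Ncont_KL f).comp (hp m).continuous).sub continuous_const).norm)
    (by simp only [hpa m _ le_rfl, Nz_KL f hγ (a m)]; exact hη1.le)
    (fun t ht => by simp only [hpa' m t ht, Nz_KL f hc (S m + t - a' m), sub_self, norm_zero, hη0])
  have hε : Tendsto (fun m : ℕ => (1 : ℝ) / (m + 1)) UU (𝓝 0) :=
    tendsto_one_div_add_atTop_nhds_zero_nat.mono_left UU_le
  have hmono : ∀ m s t, s ≤ t → s - l₀ ⬝ᵥ Ψ (p m s) ≤ t - l₀ ⬝ᵥ Ψ (p m t) := fun m s t e => by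
    have := f.De_mono (hp m) e
    simpa only [f.dot_De f.one] using this
  have hend : ∀ m t, a' m ≤ t → ∀ l' : E n, l' ⬝ᵥ v = 1 →
      t - l' ⬝ᵥ Ψ (p m t) ≤ 1 / (m + 1) + (b (c 0) - l' ⬝ᵥ Ψ (c 0)) := fun m t e l' hl' => by
    have h1 := (hpb m t).1
    have h2 := hcb (S m + t - a' m) (by linarith [hS m])
    rw [hpa' m t e] at h1 ⊢
    rw [zdot_KL f hc hl']
    linarith
  have hup : ∀ m t, t - l₀ ⬝ᵥ Ψ (p m t) ≤ 1 / (m + 1) + (b (c 0) - l₀ ⬝ᵥ Ψ (c 0)) := fun m t =>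
    (hmono m t _ (le_max_left t (a' m))).trans (hend m _ (le_max_right _ _) l₀ f.one)
  obtain ⟨k, d, hd, hlim⟩ := h.lim (fun m s => p m (s + t₀ m)) fun m => lip_shift (hp m) _
  have hdiff : ∀ (l' : E n) (s t : ℝ),
      Tendsto (fun m => l' ⬝ᵥ Ψ (p m (t + t₀ m)) - l' ⬝ᵥ Ψ (p m (s + t₀ m))) UU
        (𝓝 (l' ⬝ᵥ Ψ (d t) - l' ⬝ᵥ Ψ (d s))) := fun l' s t => by
    have hc' := (cont_dot l').comp hK'.continuous
    refine (((hc'.tendsto _).comp (hlim t)).sub ((hc'.tendsto _).comp (hlim s))).congr fun m => ?_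
    simp only [Function.comp, f.eqv, dotProduct_add]
    ring
  have hdi : Isometry d := isometry_of_le hd fun s t _ => by
    refine le_of_tendsto_of_tendsto' (by simpa using hε.const_sub (t - s))
      ((hlim s).dist (hlim t)) fun m => ?_
    have h1 := lip_sub hb.1 (p m (s + t₀ m)) (p m (t + t₀ m))
    have h2 := (hpb m (t + t₀ m)).1
    have h3 := (hpb m (s + t₀ m)).2
    rw [h.iso, ← one_div]
    linarith
  obtain ⟨y, hdy⟩ := (hFI h v l₀ Ψ A f d).1 hdi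
    ⟨1 + (b (c 0) - l₀ ⬝ᵥ Ψ (c 0)) + l₀ ⬝ᵥ Ψ (γ 0), fun s t _ => by
      refine le_of_tendsto ((hdiff l₀ s t).const_sub (t - s)) (Eventually.of_forall fun m => ?_)
      have h1 := hup m (t + t₀ m)
      have h2 := hμ (p m (s + t₀ m))
      have h3 := (hpb m (s + t₀ m)).2
      have h4 : (1 : ℝ) / (m + 1) ≤ 1 := by
        rw [div_le_one (by positivity)]; linarith [m.cast_nonneg (α := ℝ)]
      linarith⟩
  have hnz : ¬ Zer v Ψ d := fun hzd => by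
    obtain ⟨e, -, he⟩ := ulim (isCompact_closedBall (0 : E n) η)
      (x := fun m => Nt_KL v l₀ Ψ (p m (0 + t₀ m)) - Nt_KL v l₀ Ψ (c 0))
      (Eventually.of_forall fun m => by rw [mem_closedBall_zero_iff, zero_add, ht₀])
    have he1 : ‖e‖ = η := tendsto_nhds_unique he.norm
      (tendsto_const_nhds.congr fun m => by rw [zero_add, ht₀])
    have h1 := (((Ncont_KL f).tendsto _).comp (hlim 0)).sub he
    have h2 := hZ2 (fun m => Nt_KL v l₀ Ψ (k m +ᵥ c 0)) (Nt_KL v l₀ Ψ (d 0) - e)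
      (fun m => ⟨fun t => k m +ᵥ c t, f.zer_rel h ⟨k m, 0, fun t => by rw [add_zero]⟩ hc, rfl⟩)
      (h1.congr fun m => by
        simp only [Function.comp]
        rw [Nadd_KL f (k m) _ (c 0)]; abel)
    exact hηD ⟨_, ⟨d, hzd, rfl⟩, _, h2, by rw [← he1]; exact congrArg _ (sub_sub_cancel _ _)⟩
  have hyδ := hδ' d y hdy hnz
  have hyl := hy d y hdy
  obtain ⟨ε, hε0, hε1, hε2⟩ : ∃ ε : ℝ, 0 < ε ∧ 9 * ε ≤ δ / 2 ∧ (7 + 2 * K) * ε ≤ θ / 4 := by
    have hK0 : (0 : ℝ) < 7 + 2 * K := by positivity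
    have := min_le_left (δ / 18) (θ / 4 / (7 + 2 * K))
    refine ⟨min (δ / 18) (θ / 4 / (7 + 2 * K)), by positivity, by linarith, ?_⟩
    rw [mul_comm, ← le_div_iff₀ hK0]
    exact min_le_right _ _
  obtain ⟨-, α, ω, hα, hω, rfl⟩ := id hdy
  have eα : ∀ l' : E n, ∀ᶠ s in atBot, l' ⬝ᵥ De v Ψ d s < l' ⬝ᵥ α + ε := fun l' =>
    (((cont_dot l').tendsto _).comp hα).eventually (gt_mem_nhds (lt_add_of_pos_right _ hε0))
  have eω : ∀ l' : E n, ∀ᶠ s in atTop, l' ⬝ᵥ ω - ε < l' ⬝ᵥ De v Ψ d s := fun l' =>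
    (((cont_dot l').tendsto _).comp hω).eventually (lt_mem_nhds (sub_lt_self _ hε0))
  obtain ⟨T₁, hT₁⟩ := eventually_atBot.1 ((eα l₀).and (eα l))
  obtain ⟨s₁, ⟨g1, g2⟩, hs₁⟩ := (((eω l₀).and (eω l)).and (eventually_ge_atTop 0)).exists
  obtain ⟨s, hs, c'', hc'', hcs⟩ := ((hFI h v l₀ Ψ A f d).2 _ hdy ε T₁ hε0).1
  obtain ⟨g3, g4⟩ := hT₁ s hs
  rw [f.dot_De f.one] at g1 g3
  rw [f.dot_De hl] at g2 g4
  rw [dotProduct_sub] at hyδ hyl
  obtain ⟨m, ⟨m1, m2⟩, m3, m4⟩ := (((Metric.tendsto_nhds.1 (hlim s) ε hε0).and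
    (hε.eventually (gt_mem_nhds hε0))).and
    (((hdiff l₀ s s₁).eventually (gt_mem_nhds (lt_add_of_pos_right _ hε0))).and
      ((hdiff l s s₁).eventually (gt_mem_nhds (lt_add_of_pos_right _ hε0))))).exists
  have hx : dist (p m (s + t₀ m)) (-k m +ᵥ c'' 0) < 2 * ε := by
    rw [← h.iso (k m), vadd_neg_vadd]
    linarith [dist_triangle (k m +ᵥ p m (s + t₀ m)) (d s) (c'' 0)]
  have b1 := lip_sub hb.1 (p m (s + t₀ m)) (-k m +ᵥ c'' 0)
  have b2 := (hpb m (s + t₀ m)).2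
  refine ⟨fun t => -k m +ᵥ c'' t, f.zer_rel h ⟨-k m, 0, fun t => by rw [add_zero]⟩ hc'', ?_, ?_⟩
  · have a1 := hK.dist_le_mul (p m (s + t₀ m)) (-k m +ᵥ c'' 0)
    have a2 := (le_abs_self _).trans (a1.trans (mul_le_mul_of_nonneg_left hx.le K.coe_nonneg))
    have a3 := hend m _ (le_max_right (s₁ + t₀ m) (a' m)) l hl
    have a4 := hmono m _ _ (le_max_left (s₁ + t₀ m) (a' m))
    have a5 := Ndot_KL f hl (p m (max (s₁ + t₀ m) (a' m)))
    rw [hpa' m _ (le_max_right _ _), Nz_KL f hc, ← hpa' m _ (le_max_right _ _)] at a5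
    have a6 := Ndot_KL f hl (p m (s₁ + t₀ m))
    have a7 := (abs_dot_le (l - l₀) _).trans (mul_le_mul_of_nonneg_left
      (ht₁ m (s₁ + t₀ m) (le_add_of_nonneg_left hs₁)) (by positivity))
    rw [dotProduct_sub, abs_le] at a7
    linarith [a7.1]
  · have a1 := f.le (-k m +ᵥ c'' 0) (p m (s + t₀ m))
    rw [dist_comm] at a1
    have a3 := hup m (s₁ + t₀ m)
    linarith

end

theorem kl_pf (hFI : FI_st n X) (hZC : ZC_st n X) (hBU : BU_st X) (hPE : PE_st n X) :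
    KL_st n X := by
  intro h v l₀ Ψ A f T τ hτ γ hγ l hl hy
  obtain ⟨b, hb⟩ := hBU γ hγ.1
  have hfin := hτ.finite (fun c y => Fi v Ψ c y) (fun _ _ _ => Fi.uniq)
    fun _ _ _ _ hr => f.fi_rel h hr
  obtain ⟨δ, hδ, hδ'⟩ := (hfin.subset (t := {y | ∃ c, Fi v Ψ c y ∧ ¬ Zer v Ψ c})
    fun y ⟨c, hc, _⟩ => ⟨c, hc.1, hc⟩).isCompact.exists_forall_le' (cont_dot l₀).continuousOn
    (a := 0) fun y ⟨c, hc, hn⟩ => lt_of_not_ge fun e => hn (f.fi_zer hc e)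
  have key : ∀ (j : ℕ) (c : ℝ → X), Zer v Ψ c →
      b (c 0) - l₀ ⬝ᵥ Ψ (c 0) + l₀ ⬝ᵥ Ψ (γ 0) < j * (δ / 2) →
      l ⬝ᵥ Ψ (c 0) - l ⬝ᵥ Ψ (γ 0) ≤ b (c 0) := fun j => by
    induction j with
    | zero =>
      intro c _ hj
      have := mu_KL f hγ hb (c 0)
      rw [Nat.cast_zero, zero_mul] at hj
      linarith
    | succ j ih =>
      intro c hc hj
      refine le_of_not_gt fun e => ?_
      obtain ⟨c', h1, h2, h3⟩ := step_KL f hFI hZC hPE h hτ hγ hb hl hy hδ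
        (fun c y hc hn => hδ' y ⟨c, hc, hn⟩) hc e
      refine h2.not_ge (ih c' h1 ?_)
      push_cast at hj
      linarith
  obtain ⟨u, hu⟩ := h.cal (l := l) (x₁ := γ 0) fun k => by
    obtain ⟨j, hj⟩ := exists_nat_gt
      ((b (k +ᵥ γ 0) - l₀ ⬝ᵥ Ψ (k +ᵥ γ 0) + l₀ ⬝ᵥ Ψ (γ 0)) / (δ / 2))
    have h1 := key j (fun t => k +ᵥ γ t) (f.zer_rel h ⟨k, 0, fun t => by rw [add_zero]⟩ hγ)
      ((div_lt_iff₀ (half_pos hδ)).1 hj)
    have h2 := lip_sub hb.1 (γ 0) (k +ᵥ γ 0)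
    rw [hb.2.1 0] at h2
    simp only [f.eqv, dotProduct_add] at h1
    linarith
  exact hu.mem

end

section

open Filter Topology Set

variable {n : Nat} {X : Type} [MetricSpace X] [Dk n X]

theorem cut_HT {g : ℝ → ℝ} (hg : Continuous g) {M a a' : ℝ} (h1 : M ≤ g a')
    (h2 : ∀ t ≤ a, g t < M) : ∃ t₀, M ≤ g t₀ ∧ ∀ t < t₀, g t < M := by
  have hb : BddBelow {t | M ≤ g t} :=
    ⟨a, fun t ht => le_of_not_ge fun e => absurd ht (not_le.2 (h2 t e))⟩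
  refine ⟨sInf {t | M ≤ g t}, (isClosed_le continuous_const hg).csInf_mem ⟨a', h1⟩ hb,
    fun t ht => lt_of_not_ge fun e => absurd ht (not_lt.2 (csInf_le hb e))⟩

theorem growth_HT {φ : ℝ → ℝ} (hm : Monotone φ) {R L : ℝ} (hR : 0 < R) (hL : 0 ≤ L)
    (h : ∀ t < 0, φ (t + R) - φ t ≤ L) (t : ℝ) (ht : 0 ≤ t) : φ 0 - φ (-t) ≤ L / R * t + L := by
  have h1 : ∀ j : ℕ, φ 0 - φ (-(j * R)) ≤ j * L := fun j => by
    induction j with
    | zero => simp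
    | succ j ih =>
      have h2 := h (-((j + 1 : ℕ) * R)) (by
        have : (0 : ℝ) < (j + 1 : ℕ) * R := by positivity
        linarith)
      have e : -(((j + 1 : ℕ) : ℝ) * R) + R = -(j * R) := by push_cast; ring
      rw [e] at h2
      have e2 : ((j + 1 : ℕ) : ℝ) * L = j * L + L := by push_cast; ring
      linarith
  have h2 : t / R ≤ (⌈t / R⌉₊ : ℝ) := Nat.le_ceil _
  have h3 : (⌈t / R⌉₊ : ℝ) < t / R + 1 := Nat.ceil_lt_add_one (by positivity)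
  have h4 := hm (neg_le_neg ((div_le_iff₀ hR).1 h2))
  have h5 := h1 ⌈t / R⌉₊
  have h6 := mul_le_mul_of_nonneg_right h3.le hL
  have e : (t / R + 1) * L = L / R * t + L := by ring
  linarith

theorem incr_HT {l : E n} {u : X → ℝ} (hu : Cal l u) {k : ℕ → G n X} {q : ℕ → ℝ → X} {c : ℝ → X}
    (hc : ∀ t, Tendsto (fun m => k m +ᵥ q m t) UU (𝓝 (c t))) (s t : ℝ) :
    Tendsto (fun m => u (q m t) - u (q m s)) UU (𝓝 (u (c t) - u (c s))) := by
  refine (((hu.1.continuous.tendsto _).comp (hc t)).sub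
    ((hu.1.continuous.tendsto _).comp (hc s))).congr fun m => ?_
  simp only [Function.comp, hu.2]
  ring

theorem near_HT {F : X → E n} {w : E n} {c : ℝ → X} {C : ℝ} (hC : ∀ t, ‖F (c t) - t • w‖ ≤ C)
    (l : E n) : ∃ K : ℝ, ∀ t, |l ⬝ᵥ F (c t) - t * (l ⬝ᵥ w)| ≤ K := by
  refine ⟨n * ‖l‖ * C, fun t => ?_⟩
  have h1 := abs_dot_le l (F (c t) - t • w)
  rw [dotProduct_sub, dotProduct_smul, smul_eq_mul] at h1
  exact h1.trans (mul_le_mul_of_nonneg_left (hC t) (by positivity))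

theorem ht_pf (hDR : DR_st n X) (hFI : FI_st n X) (hBU : BU_st X) (hPE : PE_st n X) :
    HT_st n X := by
  intro hS v l₀ Ψ A f T τ hτ γ hγ l u hu hlv w γ' hγ' ⟨C, hC⟩ hlw h0w
  obtain ⟨C0, -, hC0⟩ := hS.bdd_cal f.isEqv hu
  obtain ⟨b, hb1, hb2, hb3⟩ := hBU γ hγ.1
  obtain ⟨K, hK⟩ := near_HT hC l
  obtain ⟨K0, hK0⟩ := near_HT hC l₀
  have hγd : ∀ (l' : E n), l' ⬝ᵥ v = 1 → ∀ t, l' ⬝ᵥ Ψ (γ t) = l' ⬝ᵥ Ψ (γ 0) + t :=
    fun l' hl' t => by rw [hγ.eq t, dotProduct_add, dotProduct_smul, hl', smul_eq_mul, mul_one]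
  obtain ⟨C1, hC1⟩ : ∃ C1 : ℝ, ∀ x, u x ≤ b x + C1 := by
    refine ⟨1 + l ⬝ᵥ Ψ (γ 0) + C0, fun x => ?_⟩
    obtain ⟨T', hT⟩ := hb3 x 1 one_pos
    have h1 := lip_sub hu.1 (γ (-T')) x
    have h2 := (abs_le.1 (hC0 (γ (-T')))).1
    have h3 := hγd l hlv (-T')
    linarith
  have huγ : ∀ S, S - (K + C0) ≤ u (γ' S) := fun S => by
    have h1 := (abs_le.1 (hK S)).1
    have h2 := (abs_le.1 (hC0 (γ' S))).2
    rw [hlw, mul_one] at h1
    linarith
  have hex := fun m : ℕ => hPE hS γ γ' b hγ.1 hγ' ⟨hb1, hb2, hb3⟩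
    ⟨K + C0 + C1, fun S _ => by linarith [huγ S, hC1 (γ' S)]⟩ (1 / ((m : ℝ) + 1))
    Nat.one_div_pos_of_nat
  choose p a a' S hp hS0 hpa hpa' hpb using hex
  obtain ⟨C5, hC5⟩ : ∃ C5 : ℝ, ∀ m s t, t - s - (u (p m t) - u (p m s)) ≤ C5 := by
    refine ⟨b (γ' 0) + 1 + (K + C0) + C1, fun m s t => ?_⟩
    have h1 := hC1 (p m s)
    have h2 := (hpb m s).2
    have h3 := (lip_sub hu.1 _ _).trans (lip_path (hp m) (le_max_left t (a' m)))
    have h4 := (hpb m (max t (a' m))).1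
    have h5 := hpa' m _ (le_max_right t (a' m))
    have h6 : 0 ≤ S m + max t (a' m) - a' m := by linarith [hS0 m, le_max_right t (a' m)]
    have h7 := (lip_sub hb1 _ _).trans (lip_path hγ' h6)
    have h8 := huγ (S m + max t (a' m) - a' m)
    have h9 : 1 / ((m : ℝ) + 1) ≤ 1 := by
      rw [div_le_one (by positivity)]
      linarith [(Nat.cast_nonneg m : (0 : ℝ) ≤ m)]
    rw [← h5] at h7 h8
    linarith
  obtain ⟨M, hM0, hM⟩ : ∃ M : ℝ, 0 ≤ M ∧ ∀ c y, Fi v Ψ c y → l₀ ⬝ᵥ y ≤ M := by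
    obtain ⟨M, hM⟩ := ((hτ.finite (Fi v Ψ) (fun c z z' h h' => h.uniq h')
      fun c c' z _ hr h => f.fi_rel hS hr h).image fun y => l₀ ⬝ᵥ y).bddAbove
    exact ⟨max M 0, le_max_right _ _, fun c y h =>
      (hM (mem_image_of_mem _ ⟨c, h.1, h⟩)).trans (le_max_left _ _)⟩
  obtain ⟨δ, hδ, hδv⟩ : ∃ δ : ℝ, 0 < δ ∧
      ∀ c w', Isometry c → Dir Ψ c w' → ‖v - w'‖ < δ → w' = v := by
    have h1 := hτ.finite (Dir Ψ) (fun c z z' h h' => tendsto_nhds_unique h h')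
      fun c c' z hc hr h => ((hDR hS Ψ f.isEqv c hc.lipschitz).2 z h).1 c' hr
    obtain ⟨δ, hδ, h2⟩ := Metric.isOpen_iff.1
      (h1.subset (diff_subset (t := {v}))).isClosed.isOpen_compl v fun h => h.2 rfl
    refine ⟨δ, hδ, fun c w' hc hw h => by_contra fun e => h2 ?_ ⟨⟨c, hc, hw⟩, e⟩⟩
    rwa [Metric.mem_ball, dist_comm, dist_eq_norm]
  have hA := f.pos
  obtain ⟨R, hR1, hR2⟩ : ∃ R : ℝ, A * (M + 1) / δ < R ∧
      (M + 1 + 2 * K0) / (1 - l₀ ⬝ᵥ w) ≤ R :=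
    ⟨max (A * (M + 1) / δ + 1) _, (lt_add_one _).trans_le (le_max_left _ _), le_max_right _ _⟩
  have hR : 0 < R := lt_trans (by positivity) hR1
  rw [div_le_iff₀ (sub_pos.2 h0w)] at hR2
  have hcut : ∀ m, ∃ t₀, M + 1 ≤ R - (l₀ ⬝ᵥ Ψ (p m (t₀ + R)) - l₀ ⬝ᵥ Ψ (p m t₀)) ∧
      ∀ t < t₀, R - (l₀ ⬝ᵥ Ψ (p m (t + R)) - l₀ ⬝ᵥ Ψ (p m t)) < M + 1 := fun m => by
    have hc := f.cal.1.continuous.comp (hp m).continuous
    refine cut_HT (g := fun t => R - (l₀ ⬝ᵥ Ψ (p m (t + R)) - l₀ ⬝ᵥ Ψ (p m t)))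
      (a := a m - R) (a' := a' m)
      (continuous_const.sub ((hc.comp (continuous_add_right R)).sub hc)) ?_ fun t ht => ?_
    · beta_reduce
      rw [hpa' m (a' m + R) (by linarith), hpa' m (a' m) le_rfl]
      have h1 := (abs_le.1 (hK0 (S m + (a' m + R) - a' m))).2
      have h2 := (abs_le.1 (hK0 (S m + a' m - a' m))).1
      linarith
    · beta_reduce
      rw [hpa m (t + R) (by linarith), hpa m t (by linarith), hγd l₀ f.one (t + R),
        hγd l₀ f.one t]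
      linarith
  choose t₀ ht1 ht2 using hcut
  obtain ⟨k, c, hc, hlim⟩ := hS.lim (fun m t => p m (t + t₀ m)) fun m => lip_shift (hp m) _
  have hiso : Isometry c := isometry_of_le hc fun s t _ => by
    have h1 : Tendsto (fun m : ℕ => t - s - 1 / ((m : ℝ) + 1)) UU (𝓝 (t - s - 0)) :=
      (tendsto_one_div_add_atTop_nhds_zero_nat.mono_left UU_le).const_sub _
    rw [sub_zero] at h1
    refine le_of_tendsto_of_tendsto' h1 ((hlim s).dist (hlim t)) fun m => ?_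
    have h2 := lip_sub hb1 (p m (s + t₀ m)) (p m (t + t₀ m))
    have h3 := (hpb m (s + t₀ m)).2
    have h4 := (hpb m (t + t₀ m)).1
    simp only [hS.iso]
    linarith
  refine ⟨c, hiso, ?_, fun hB => ?_, C5, fun s t _ => ?_⟩
  · obtain ⟨⟨w', hw⟩, h1⟩ := hDR hS Ψ f.isEqv c hc
    have h2 : ∀ t < 0, l₀ ⬝ᵥ De v Ψ c (t + R) - l₀ ⬝ᵥ De v Ψ c t ≤ M + 1 := fun t ht => by
      have h3 := le_of_tendsto' ((incr_HT f.cal hlim t (t + R)).const_sub R) fun m => by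
        have h4 := ht2 m (t + t₀ m) (by linarith)
        rw [add_right_comm] at h4
        exact h4.le
      rw [f.dot_De f.one, f.dot_De f.one]
      linarith
    have h3 := (h1 w' hw).2.2.2 v (A * (M + 1) / R) (A * (M + 1)) fun t ht => by
      have h4 := f.De_le hc (neg_nonpos.2 ht)
      have h5 := mul_le_mul_of_nonneg_left
        (growth_HT (f.De_mono hc) hR (by linarith) h2 t ht) hA.le
      have e : De v Ψ c 0 - De v Ψ c (-t) = t • v - (Ψ (c 0) - Ψ (c (-t))) := by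
        simp only [De, zero_smul, neg_smul]
        abel
      rw [e] at h4
      have e2 : A * ((M + 1) / R * t + (M + 1)) = A * (M + 1) / R * t + A * (M + 1) := by ring
      exact h4.trans (h5.trans e2.le)
    have h4 : A * (M + 1) / R < δ := by
      rw [div_lt_iff₀ hδ] at hR1
      rw [div_lt_iff₀ hR]
      linarith
    exact hδv c w' hiso hw (h3.trans_lt h4) ▸ hw
  · obtain ⟨y, hy⟩ := (hFI hS v l₀ Ψ A f c).1 hiso hB
    have h1 := (f.fi_le hy 0 R).trans (hM c y hy)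
    have h2 := ge_of_tendsto' ((incr_HT f.cal hlim 0 R).const_sub R) fun m => by
      have h3 := ht1 m
      rw [add_comm (t₀ m) R] at h3
      rw [zero_add]
      exact h3
    rw [f.dot_De f.one, f.dot_De f.one] at h1
    linarith
  · refine le_of_tendsto' ((incr_HT hu hlim s t).const_sub (t - s)) fun m => ?_
    have h1 := hC5 m (s + t₀ m) (t + t₀ m)
    linarith

end

section

open Filter Topology Set

variable {n : Nat} {X : Type} [MetricSpace X] [Dk n X]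

theorem iso_le_Y3 {c : ℝ → X} (hc : Isometry c) {u : X → ℝ} (hu : LipschitzWith 1 u) {s t : ℝ}
    (h : s ≤ t) : u (c t) - u (c s) ≤ t - s :=
  (lip_sub hu _ _).trans (lip_path hc.lipschitz h)

theorem y3_pf : Y3_st n X := by
  intro h v l₀ Ψ A f c hc hb
  set d : ℕ → E n := fun j => De v Ψ c j - De v Ψ c (-j) with hd
  set m : ℕ → ℝ := fun j => l₀ ⬝ᵥ De v Ψ c j - l₀ ⬝ᵥ De v Ψ c (-j) with hm
  have hj : ∀ j : ℕ, -(j : ℝ) ≤ j := fun j => neg_le_self (Nat.cast_nonneg j)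
  have mono := f.De_mono hc.lipschitz
  have ht : Tendsto m UU atTop := by
    refine Tendsto.mono_left (tendsto_atTop_atTop.2 fun M => ?_) UU_le
    simp only [Bd, not_exists, not_forall, not_le] at hb
    obtain ⟨s, t, -, hst⟩ := hb M
    obtain ⟨N, hN⟩ := exists_nat_ge (max t (-s))
    refine ⟨N, fun j hNj => ?_⟩
    have e : (N : ℝ) ≤ j := Nat.cast_le.2 hNj
    have h1 := mono (show t ≤ j from ((le_max_left _ _).trans hN).trans e)
    have h2 := mono (show -(j : ℝ) ≤ s by linarith [le_max_right t (-s)])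
    simp only [hm]
    simp only [f.dot_De f.one] at h1 h2 ⊢
    linarith
  have hp : ∀ᶠ j in UU, 0 < m j := ht.eventually_gt_atTop 0
  obtain ⟨y, -, hy⟩ := ulim (isCompact_closedBall (0 : E n) A) (x := fun j => (m j)⁻¹ • d j)
    (hp.mono fun j h0 => by
      rw [mem_closedBall_zero_iff, norm_smul, Real.norm_of_nonneg (inv_nonneg.2 h0.le),
        inv_mul_le_iff₀ h0, mul_comm]
      exact f.De_le hc.lipschitz (hj j))
  have hl : ∀ l : E n, Tendsto (fun j => (m j)⁻¹ * (l ⬝ᵥ d j)) UU (𝓝 (l ⬝ᵥ y)) := fun l =>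
    (((cont_dot l).tendsto y).comp hy).congr fun j => by
      simp only [Function.comp, dotProduct_smul, smul_eq_mul]
  have h0 : ∀ a : ℝ, Tendsto (fun j => (m j)⁻¹ * a) UU (𝓝 0) := fun a => by
    simpa using ht.inv_tendsto_atTop.mul_const a
  refine ⟨y, tendsto_nhds_unique (hl l₀) (tendsto_const_nhds.congr' (hp.mono fun j h1 => ?_)),
    fun l u hu hv => ?_⟩
  · simp only [hd, dotProduct_sub]
    exact (inv_mul_cancel₀ h1.ne').symm
  obtain ⟨C, -, hC⟩ := h.bdd_cal f.isEqv hu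
  have e : ∀ j : ℕ, l ⬝ᵥ d j = j - l ⬝ᵥ Ψ (c j) - (-j - l ⬝ᵥ Ψ (c (-j))) := fun j => by
    simp only [hd, dotProduct_sub l (De v Ψ c j), f.dot_De hv]
  refine ⟨le_of_tendsto_of_tendsto (h0 (-(2 * C))) (hl l) (hp.mono fun j h1 => ?_), ?_⟩
  · refine mul_le_mul_of_nonneg_left ?_ (inv_nonneg.2 h1.le)
    have a1 := abs_le.1 (hC (c j))
    have a2 := abs_le.1 (hC (c (-j)))
    have a3 := iso_le_Y3 hc hu.1 (hj j)
    rw [e]
    linarith [a1.2, a2.1]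
  · rintro ⟨M, hM⟩
    refine le_of_tendsto_of_tendsto (hl l) (h0 (M + 2 * C)) (hp.mono fun j h1 => ?_)
    refine mul_le_mul_of_nonneg_left ?_ (inv_nonneg.2 h1.le)
    have a1 := abs_le.1 (hC (c j))
    have a2 := abs_le.1 (hC (c (-j)))
    have a3 := hM _ _ (hj j)
    rw [e]
    linarith [a1.1, a2.2]

theorem m1_pf (hFI : FI_st n X) : M1_st n X := by
  intro h v l₀ Ψ A f γ hγ hall c y hc l u hu hv
  obtain ⟨K₀, hK₀⟩ := f.isEqv.lip_dot l
  obtain ⟨C, -, hC⟩ := h.bdd_cal f.isEqv hu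
  set om : X → ℝ := fun x => l ⬝ᵥ Ψ x - u x with hom
  have hK : LipschitzWith (K₀ + 1) om := hK₀.sub hu.1
  have per : ∀ (k : G n X) (x : X), om (k +ᵥ x) = om x := fun k x => by
    simp only [hom, f.eqv, hu.2, dotProduct_add]; ring
  have mono : Monotone fun t => om (γ t) := fun s t e => by
    have := iso_le_Y3 hγ.1 hu.1 e
    simp only [hom, hγ.eq s, hγ.eq t, dotProduct_add, dotProduct_smul, hv, smul_eq_mul]
    linarith
  obtain ⟨L, hL⟩ : ∃ L, Tendsto (fun t => om (γ t)) atTop (𝓝 L) :=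
    ⟨_, tendsto_atTop_ciSup mono ⟨C, by rintro _ ⟨t, rfl⟩; exact (abs_le.1 (hC _)).2⟩⟩
  obtain ⟨k, c₁, -, h1⟩ := h.lim (fun m t => γ (t + m)) fun m => lip_shift hγ.1.lipschitz m
  obtain ⟨K₁, hK₁⟩ := f.isEqv.1
  have z1 : Zer v Ψ c₁ := by
    refine ⟨Isometry.of_dist_eq fun s t => tendsto_nhds_unique ((h1 s).dist (h1 t))
      (tendsto_const_nhds.congr fun m => ?_), fun s t => ?_⟩
    · rw [h.iso, hγ.1.dist_eq, dist_add_right]
    · have a := ((hK₁.continuous.tendsto _).comp (h1 t)).sub ((hK₁.continuous.tendsto _).comp (h1 s))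
      have b : Ψ (c₁ t) - Ψ (c₁ s) = (t - s) • v :=
        tendsto_nhds_unique a (tendsto_const_nhds.congr fun m => by
          simp only [Function.comp, f.eqv, hγ.eq (t + m), hγ.eq (s + m), add_smul, sub_smul]
          abel)
      simp only [De]
      rw [sub_smul, sub_eq_sub_iff_sub_eq_sub] at b
      rw [← neg_inj, neg_sub, neg_sub, b]
  have z2 : ∀ t, om (c₁ t) = L := fun t => by
    refine tendsto_nhds_unique ((hK.continuous.tendsto _).comp (h1 t)) ?_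
    have : Tendsto (fun m : ℕ => t + m) UU atTop :=
      (tendsto_atTop_add_const_left _ t tendsto_natCast_atTop_atTop).mono_left UU_le
    exact (hL.comp this).congr fun m => (per _ _).symm
  have z3 : ∀ t, om (γ t) = L := fun t => by
    obtain ⟨j, b, e⟩ := hall c₁ z1
    have := z2 (t - b)
    rwa [e, per, sub_add_cancel] at this
  have z4 : ∀ c', Zer v Ψ c' → ∀ x ε, dist x (c' 0) < ε → |om x - L| ≤ (K₀ + 1) * ε := by
    intro c' hc' x ε hx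
    obtain ⟨j, b, e⟩ := hall c' hc'
    have a := hK.dist_le_mul x (c' 0)
    rw [Real.dist_eq, show om (c' 0) = L by rw [e, per, z3]] at a
    push_cast at a
    exact a.trans (mul_le_mul_of_nonneg_left hx.le (by positivity))
  have hfi := (hFI h v l₀ Ψ A f c).2 y hc
  obtain ⟨hc, a, b, ha, hb, rfl⟩ := hc
  refine le_of_forall_pos_le_add fun δ hδ => ?_
  have hk : (0 : ℝ) < 2 * (K₀ + 1) + 2 := by positivity
  obtain ⟨ε, hε, e⟩ : ∃ ε : ℝ, 0 < ε ∧ (2 * (K₀ + 1) + 2) * ε = δ :=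
    ⟨δ / (2 * (K₀ + 1) + 2), div_pos hδ hk, mul_div_cancel₀ _ hk.ne'⟩
  obtain ⟨T₁, hT₁⟩ := eventually_atBot.1
    ((Metric.tendsto_nhds.1 (((cont_dot l).tendsto a).comp ha)) ε hε)
  obtain ⟨T₂, hT₂⟩ := eventually_atTop.1
    ((Metric.tendsto_nhds.1 (((cont_dot l).tendsto b).comp hb)) ε hε)
  obtain ⟨s, hs, c₂, w1, w2⟩ := (hfi ε (min T₁ 0) hε).1
  obtain ⟨t, ht, c₃, w3, w4⟩ := (hfi ε (max T₂ 0) hε).2
  have a1 := hT₁ s (hs.trans (min_le_left _ _))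
  have a2 := hT₂ t ((le_max_left _ _).trans ht)
  have a3 := abs_le.1 (z4 c₂ w1 _ _ w2)
  have a4 := abs_le.1 (z4 c₃ w3 _ _ w4)
  have a5 := iso_le_Y3 hc hu.1
    ((hs.trans (min_le_right _ _)).trans ((le_max_right _ _).trans ht))
  simp only [Function.comp, Real.dist_eq, f.dot_De hv, abs_lt] at a1 a2
  simp only [hom] at a3 a4
  rw [dotProduct_sub]
  linarith [a1.1, a2.2, a3.1, a4.2]

end

end Pool.Agent.MP_4d76c1_gt.Gam
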