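import Pool.Agent.MP_4d76c1_gt.Gam.St

set_option autoImplicit false

namespace Pool.Agent.MP_4d76c1_gt.Gam

section

open Filter Topology Set

variable {n : ℕ} {X : Type} [MetricSpace X] [Dk n X]

theorem eta_GY {T : Type} {S : Set T} (hS : S.Finite) (a b : T → ℝ)
    (h : ∀ t ∈ S, 0 < a t ∨ (0 ≤ a t ∧ 0 ≤ b t)) : ∃ η : ℝ, 0 < η ∧ ∀ t ∈ S, 0 ≤ a t + η * b t := by
  have h1 : ∀ᶠ η : ℝ in 𝓝[>] 0, ∀ t ∈ S, 0 ≤ a t + η * b t := by
    refine (eventually_all_finite hS).2 fun t ht => ?_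
    rcases h t ht with k | k
    · have c : Continuous fun η : ℝ => a t + η * b t := by fun_prop
      exact ((c.tendsto' 0 (a t) (by simp)).eventually (le_mem_nhds k)).filter_mono
        nhdsWithin_le_nhds
    · filter_upwards [self_mem_nhdsWithin] with η hη
      exact add_nonneg k.1 (mul_nonneg (le_of_lt hη) k.2)
  obtain ⟨η, h2, h3⟩ := (h1.and self_mem_nhdsWithin).exists
  exact ⟨η, h3, h2⟩

theorem dot_GY (l₀ μ y : E n) (η : ℝ) :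
    (l₀ + (1 + η) • μ) ⬝ᵥ y = (l₀ + μ) ⬝ᵥ y + η * (μ ⬝ᵥ y) := by
  simp only [add_dotProduct, smul_dotProduct, smul_eq_mul]
  ring

theorem gy2_pf (hKL : KL_st n X) (hM : M1_st n X) : GY2_st n X := by
  rintro h v l₀ Ψ A f T τ hτ ⟨γ, hγ⟩
  obtain ⟨y, hy⟩ : ∃ y : T → E n, ∀ c y', Fi v Ψ c y' → y (τ c) = y' := by
    refine ⟨fun t => Classical.epsilon fun y => ∃ c, τ c = t ∧ Fi v Ψ c y, fun c y' hc => ?_⟩
    obtain ⟨c', e, hc'⟩ := Classical.epsilon_spec (p := fun y => ∃ c', τ c' = τ c ∧ Fi v Ψ c' y)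
      ⟨y', c, rfl, hc⟩
    exact (f.fi_rel h (hτ.rel c' c hc'.1 hc.1 e) hc').uniq hc
  refine ⟨y, ⟨?_, fun μ h1 _ h3 => ?_⟩, fun hn => ?_⟩
  · rintro _ ⟨c, ⟨y', h0, hc⟩, rfl⟩
    rw [hy c y' hc]
    exact not_le.1 fun k => h0 (hc.uniq (f.fi_zer hc k).fi)
  · by_contra hc
    obtain ⟨η, hη, k⟩ := eta_GY (S := τ '' {c | ∃ y, y ≠ 0 ∧ Fi v Ψ c y})
      (hτ.fin.subset (image_mono fun c ⟨_, _, hc⟩ => hc.1)) (fun t => (l₀ + μ) ⬝ᵥ y t)
      (fun t => μ ⬝ᵥ y t) fun t ht => Or.inl (not_le.1 fun e => hc ⟨t, ht, e⟩)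
    refine h3 η hη (hKL h v l₀ Ψ A f T τ hτ γ hγ _ ?_ fun c y' hc => ?_)
    · rw [dot_GY, add_dotProduct, h1, f.one]
      simp
    · by_cases h0 : y' = 0
      · rw [h0, dotProduct_zero]
      · rw [dot_GY, ← hy c y' hc]
        exact k _ ⟨c, ⟨y', h0, hc⟩, rfl⟩
  · rintro _ ⟨c, ⟨y', -, hc⟩, rfl⟩ l hl h1
    obtain ⟨u, hu⟩ := h.cal' hl
    rw [hy c y' hc]
    refine hM h v l₀ Ψ A f γ hγ (fun c' hc' => hτ.rel γ c' hγ.1 hc'.1 ?_) c y' hc l u hu h1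
    exact (ncard_le_one (hτ.fin.subset (image_mono fun c hc => hc.1))).1 hn _ ⟨γ, hγ, rfl⟩ _
      ⟨c', hc', rfl⟩

theorem gy3_pf (hHT : HT_st n X) (hY : Y3_st n X) (hFR : FR_st n X) (hZ : Z0_st n X) :
    GY3_st n X := by
  rintro h v l₀ Ψ A f T τ hτ ⟨γ, hγ⟩ Q hQ
  have key : ∀ t : T, ∃ y : E n,
      t ∈ τ '' {c | Isometry c ∧ Dir Ψ c v ∧ ¬ Bd (fun x => l₀ ⬝ᵥ Ψ x) c} →
      ∃ c, Isometry c ∧ τ c = t ∧ l₀ ⬝ᵥ y = 1 ∧ ∀ (l : E n) (u : X → ℝ), Cal l u → l ⬝ᵥ v = 1 →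
        0 ≤ l ⬝ᵥ y ∧ (Bd u c → l ⬝ᵥ y ≤ 0) := fun t => by
    by_cases ht : t ∈ τ '' {c | Isometry c ∧ Dir Ψ c v ∧ ¬ Bd (fun x => l₀ ⬝ᵥ Ψ x) c}
    · obtain ⟨c, hc, e⟩ := ht
      obtain ⟨y, hy⟩ := hY h v l₀ Ψ A f c hc.1 hc.2.2
      exact ⟨y, fun _ => ⟨c, hc.1, e, hy⟩⟩
    · exact ⟨0, fun k => absurd k ht⟩
  choose y hy using key
  refine ⟨y, ⟨fun t ht => ?_, fun μ h1 h2 h3 => ?_⟩, fun t ht l hl h1 => ?_⟩
  · obtain ⟨c, -, -, k, -⟩ := hy t ht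
    rw [k]
    exact one_pos
  · have h4 : ∀ q ∈ Q, (l₀ + μ) ⬝ᵥ q ≤ 1 := by rwa [hQ.2] at h2
    obtain ⟨q, hq, q1, q2⟩ : ∃ q ∈ Q, (l₀ + μ) ⬝ᵥ q = 1 ∧ 0 < μ ⬝ᵥ q := by
      by_contra hc
      obtain ⟨η, hη, k⟩ := eta_GY Q.finite_toSet (fun q => 1 - (l₀ + μ) ⬝ᵥ q)
        (fun q => -(μ ⬝ᵥ q)) fun q hq => by
          rcases (h4 q hq).eq_or_lt with e | e
          · exact Or.inr ⟨by linarith, neg_nonneg.2 (not_lt.1 fun e' => hc ⟨q, hq, e, e'⟩)⟩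
          · exact Or.inl (by linarith)
      refine h3 η hη ?_
      rw [hQ.2]
      intro q hq
      have := k q hq
      rw [dot_GY]
      linarith
    obtain ⟨l₁, e₁⟩ := hQ.1 q hq
    obtain ⟨Ψ', A', f'⟩ := hFR h q l₁ e₁
    obtain ⟨γ', hγ'⟩ := hZ h q l₁ Ψ' A' f' e₁
    obtain ⟨C, -, hC⟩ := h.bdd_eqv f.isEqv f'.isEqv
    obtain ⟨u, hu⟩ := h.cal' h2
    have h5 : (l₀ + μ) ⬝ᵥ v = 1 := by rw [add_dotProduct, h1, f.one, add_zero]
    obtain ⟨c, c1, c2, c3, c4⟩ := hHT h v l₀ Ψ A f T τ hτ γ hγ _ u hu h5 q γ' hγ'.1.lipschitz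
      ⟨C + ‖Ψ' (γ' 0)‖, fun t => by
        have e : Ψ (γ' t) - t • q = (Ψ (γ' t) - Ψ' (γ' t)) + Ψ' (γ' 0) := by
          rw [hγ'.eq t]
          abel
        rw [e]
        exact norm_add_le_of_le (hC _) le_rfl⟩ q1 (by
        rw [add_dotProduct] at q1
        linarith)
    obtain ⟨c', d1, d2, -, d3⟩ := hy (τ c) ⟨c, ⟨c1, c2, c3⟩, rfl⟩
    exact ⟨τ c, ⟨c, ⟨c1, c2, c3⟩, rfl⟩,
      (d3 _ u hu h5).2 (hu.bd_rel (hτ.rel c c' c1 d1 d2.symm) c4)⟩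
  · obtain ⟨c, -, -, -, k⟩ := hy t ht
    obtain ⟨u, hu⟩ := h.cal' hl
    exact (k l u hu h1).1

end

section

open Filter Topology Set

variable {n : Nat} {X : Type} [MetricSpace X] [Dk n X]

theorem dis_C {T : Type} {τ : (ℝ → X) → T} (hτ : Fint n τ) {P Q : Set (ℝ → X)}
    (hP : ∀ c ∈ P, Isometry c) (hQ : ∀ c ∈ Q, Isometry c)
    (h : ∀ c ∈ P, ∀ c' ∈ Q, ¬ Rel n c c') : Disjoint (τ '' P) (τ '' Q) := by
  rw [Set.disjoint_left]
  rintro _ ⟨c, hc, rfl⟩ ⟨c', hc', e⟩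
  exact h c hc c' hc' (hτ.rel c c' (hP c hc) (hQ c' hc') e.symm)

theorem fin_C {T : Type} {τ : (ℝ → X) → T} (hτ : Fint n τ) {P : Set (ℝ → X)}
    (hP : ∀ c ∈ P, Isometry c) : (τ '' P).Finite := hτ.fin.subset (image_mono hP)

theorem dir_C (hDR : DR_st n X) (h : Sp n X) {v l₀ : E n} {Ψ : X → E n} {A : ℝ}
    (f : Fr v l₀ Ψ A) {c : ℝ → X} (hc : Isometry c) (hb : Bd (fun x => l₀ ⬝ᵥ Ψ x) c) :
    Dir Ψ c v := by
  obtain ⟨⟨w, hw⟩, h2⟩ := hDR h Ψ f.isEqv c hc.lipschitz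
  obtain ⟨M, hM⟩ := hb
  have h3 := (h2 w hw).2.2.2 v 0 (A * M) fun t ht => by
    have a1 := f.De_le hc.lipschitz (show -t ≤ 0 by linarith)
    have a2 := hM (-t) 0 (by linarith)
    rw [f.dot_De f.one, f.dot_De f.one] at a1
    have e : t • v - (Ψ (c 0) - Ψ (c (-t))) = De v Ψ c 0 - De v Ψ c (-t) := by
      simp only [De, zero_smul, neg_smul]
      abel
    rw [e, zero_mul, zero_add]
    exact a1.trans (mul_le_mul_of_nonneg_left (by linarith) f.pos.le)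
  rwa [sub_eq_zero.1 (norm_le_zero_iff.1 h3)]

theorem c0_pf (hDR : DR_st n X) : C0_st n X := by
  intro h v l₀ Ψ A f T τ hτ F hF
  have i1 : ∀ c ∈ {c | Zer v Ψ c}, Isometry c := fun _ hc => hc.1
  have i2 : ∀ c ∈ {c | ∃ y, y ≠ 0 ∧ Fi v Ψ c y}, Isometry c := fun _ ⟨_, hc⟩ => hc.2.1
  have i3 : ∀ c ∈ {c | Isometry c ∧ Dir Ψ c v ∧ ¬ Bd (fun x => l₀ ⬝ᵥ Ψ x) c}, Isometry c :=
    fun _ hc => hc.1
  have d12 := dis_C hτ i1 i2 fun c hc c' ⟨y, hy, hc'⟩ hr => hy (hc'.uniq (f.zer_rel h hr hc).fi)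
  have d13 := dis_C hτ i1 i3 fun c hc c' hc' hr => hc'.2.2 (f.cal.bd_rel hr (f.fi_bd (Zer.fi hc)))
  have d23 := dis_C hτ i2 i3 fun c ⟨y, _, hc⟩ c' hc' hr => hc'.2.2 (f.cal.bd_rel hr (f.fi_bd hc))
  have key : ∀ c, Isometry c → Dir Ψ c v → c ∈ {c | Isometry c ∧ Dir F c v} := fun c hc hd =>
    ⟨hc, ((hDR h Ψ f.isEqv c hc.lipschitz).2 v hd).2.1 F hF⟩
  rw [← ncard_union_eq d12 (fin_C hτ i1) (fin_C hτ i2), ← ncard_union_eq
    (disjoint_union_left.2 ⟨d13, d23⟩) ((fin_C hτ i1).union (fin_C hτ i2)) (fin_C hτ i3)]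
  refine ncard_le_ncard (union_subset (union_subset (image_mono fun c hc => ?_)
    (image_mono fun c ⟨y, _, hc⟩ => ?_)) (image_mono fun c hc => key c hc.1 hc.2.1))
    (fin_C hτ fun _ hc => hc.1)
  · exact key c hc.1 (dir_C hDR h f hc.1 (f.fi_bd (Zer.fi hc)))
  · exact key c hc.1 (dir_C hDR h f hc.1 (f.fi_bd hc))

theorem c1_pf (hDR : DR_st n X) : C1_st n X := by
  classical
  intro h T τ hτ F hF V N hV
  have key : V.card * N ≤ (τ '' {c | Isometry c ∧ ∃ v ∈ V, Dir F c v}).ncard := by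
    induction V using Finset.induction_on with
    | empty => simp
    | insert v V hv ih =>
      have i1 : ∀ c ∈ {c | Isometry c ∧ ∃ v ∈ V, Dir F c v}, Isometry c := fun _ hc => hc.1
      have i2 : ∀ c ∈ {c | Isometry c ∧ Dir F c v}, Isometry c := fun _ hc => hc.1
      have d := dis_C hτ i1 i2 fun c ⟨hc, w, hw, hd⟩ c' hc' hr =>
        hv (tendsto_nhds_unique (((hDR h F hF c hc.lipschitz).2 w hd).1 c' hr) hc'.2 ▸ hw)
      rw [Finset.card_insert_of_notMem hv, add_mul, one_mul]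
      refine (add_le_add (ih fun w hw => hV w (Finset.mem_insert_of_mem hw))
        (hV v (Finset.mem_insert_self _ _))).trans ?_
      rw [← ncard_union_eq d (fin_C hτ i1) (fin_C hτ i2)]
      exact ncard_le_ncard (union_subset
        (image_mono fun c ⟨hc, w, hw, hd⟩ => ⟨hc, w, Finset.mem_insert_of_mem hw, hd⟩)
        (image_mono fun c hc => ⟨hc.1, v, Finset.mem_insert_self _ _, hc.2⟩))
        (fin_C hτ fun _ hc => hc.1)
  exact key.trans (ncard_le_ncard (image_mono fun _ hc => hc.1) hτ.fin)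

theorem lift_C (h : Sp n X) (hf : ∀ (k : G n X) (x : X), k +ᵥ x = x → k = 0) {c c' : ℝ → X}
    (hc : Isometry c) (hc' : Isometry c') {β : ℝ} (e : ∀ t, ∃ k : G n X, c' t = k +ᵥ c (t + β)) :
    Rel n c c' := by
  choose k hk using e
  have hl : IsLocallyConstant k := by
    refine (IsLocallyConstant.iff_eventually_eq k).2 fun t => ?_
    have hd : ∀ s, dist (c (t + β)) ((-k t + k s) +ᵥ c (t + β)) ≤ 2 * dist s t := fun s => by
      rw [← h.iso (k t), ← add_vadd, add_neg_cancel_left, ← hk t]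
      have a1 := dist_triangle (c' t) (c' s) (k s +ᵥ c (t + β))
      rw [hc'.dist_eq, hk s, h.iso, hc.dist_eq, dist_add_right, dist_comm t s] at a1
      linarith
    have ev : ∀ r : ℝ, 0 < r → ∀ᶠ s in 𝓝 t, 2 * dist s t < r := fun r hr => by
      filter_upwards [Metric.ball_mem_nhds t (half_pos hr)] with s hs
      linarith [Metric.mem_ball.1 hs]
    have e1 : ∀ᶠ s in 𝓝 t, ∀ j ∈ {j : G n X | dist (c (t + β)) (j +ᵥ c (t + β)) ≤ 1},
        j ≠ 0 → 2 * dist s t < dist (c (t + β)) (j +ᵥ c (t + β)) := by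
      refine (eventually_all_finite (h.pd _ 1)).2 fun j _ => ?_
      by_cases hj : j = 0
      · exact Eventually.of_forall fun _ k => absurd hj k
      · exact (ev _ (dist_pos.2 fun k => hj (hf j _ k.symm))).mono fun _ hs _ => hs
    filter_upwards [e1, ev 1 one_pos] with s h1 h2
    by_contra hn
    exact absurd (h1 _ ((hd s).trans h2.le) fun e => hn (neg_add_eq_zero.1 e).symm) (not_lt.2 (hd s))
  exact ⟨k 0, β, fun t => by rw [hk t, hl.apply_eq_of_preconnectedSpace t 0]⟩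

theorem cov_pf : COV_st n X := by
  classical
  intro h hf M π hπ S hS
  obtain ⟨x₀, -⟩ := h.coc
  have : Nonempty M := ⟨π x₀⟩
  choose! c0 h0 a b ha hc using hS
  have hsub : (fun c => (c0 c, a c)) '' {c | Isometry c} ⊆
      ((S ×ˢ ({1, -1} : Finset ℝ) : Finset _) : Set ((ℝ → M) × ℝ)) := by
    rintro _ ⟨c, hi, rfl⟩
    simpa using ⟨h0 c hi, ha c hi⟩
  refine ⟨(ℝ → M) × ℝ, fun c => (c0 c, a c), ⟨(Finset.finite_toSet _).subset hsub,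
    fun c c' i1 i2 e => lift_C h hf i1 i2 (β := a c * (b c' - b c)) fun t => hπ _ _ ?_⟩, ?_⟩
  · obtain ⟨e1, e2⟩ := Prod.mk.inj e
    rw [hc c i1, hc c' i2, ← e1, ← e2]
    congr 1
    rcases ha c i1 with k | k <;> rw [k] <;> ring
  · refine (ncard_le_ncard hsub (Finset.finite_toSet _)).trans ?_
    rw [ncard_coe_finset, Finset.card_product, mul_comm]
    exact Nat.mul_le_mul_right _ Finset.card_le_two

end

section

open Filter Topology Set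

variable {n : ℕ} {X : Type} [MetricSpace X] [Dk n X]

theorem a_pf (hSM : SM_st n X) (hDR : DR_st n X) (hP : P_st n X) (hPL1 : PL1_st) (hPL2 : PL2_st)
    (hG1 : G1_st) (hG2 : G2_st) (hFR : FR_st n X) (hZ : Z0_st n X) (h2 : GY2_st n X)
    (h3 : GY3_st n X) (hC0 : C0_st n X) (hC1 : C1_st n X) (hCOV : COV_st n X) : A_st n X := by
  intro hn h hfree M π hπ S hS
  obtain ⟨T, τ, hτ, hcard⟩ := hCOV h hfree M π hπ S hS
  obtain ⟨F, hF⟩ := hSM h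
  have hfin := hτ.finite (fun c w => Dir F c w) (fun _ _ _ => tendsto_nhds_unique)
    fun c c' w hc hr hw => ((hDR h F hF c hc.lipschitz).2 w hw).1 c' hr
  obtain ⟨Q, hQ⟩ := hPL1 n _ _ hfin (hP h F hF)
  have key : ∀ v l₀, Exp (B n X) v l₀ → ∃ (S₁ S₂ S₃ : Set T) (y₂ y₃ : T → E n), 1 ≤ S₁.ncard ∧
      S₂.Finite ∧ S₃.Finite ∧ Guard (B n X) v l₀ S₂ y₂ ∧ (S₁.ncard ≤ 1 → Pos (B n X) v S₂ y₂) ∧
      Guard (B n X) v l₀ S₃ y₃ ∧ Pos (B n X) v S₃ y₃ ∧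
      S₁.ncard + S₂.ncard + S₃.ncard ≤ (τ '' {c | Isometry c ∧ Dir F c v}).ncard := by
    intro v l₀ he
    obtain ⟨Ψ, A, f⟩ := hFR h v l₀ he
    obtain ⟨γ, hγ⟩ := hZ h v l₀ Ψ A f he
    obtain ⟨y₂, a1, a2⟩ := h2 h v l₀ Ψ A f T τ hτ ⟨γ, hγ⟩
    obtain ⟨y₃, a3, a4⟩ := h3 h v l₀ Ψ A f T τ hτ ⟨γ, hγ⟩ Q hQ
    refine ⟨_, _, _, y₂, y₃, ?_, hτ.fin.subset (image_mono fun c hc => hc.choose_spec.2.1),
      hτ.fin.subset (image_mono fun c hc => hc.1), a1, a2, a3, a4, hC0 h v l₀ Ψ A f T τ hτ F hF⟩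
    exact (Set.ncard_pos (hτ.fin.subset (image_mono fun c hc => hc.1))).2 ⟨_, γ, hγ, rfl⟩
  rcases hPL2 n _ Q hQ (B_bounded h) (fun l => B_neg h) with ⟨v, f, hc⟩ | ⟨V, hV, hV'⟩
  · classical
    obtain ⟨g1, g2⟩ := hG2 n _ v f hc
    have hs : ∀ b : Bool, (if b then (1 : ℝ) else -1) = 1 ∨ (if b then (1 : ℝ) else -1) = -1 :=
      fun b => by cases b <;> simp
    have hinj : Function.Injective
        fun p : Fin n × Bool => (if p.2 then (1 : ℝ) else -1) • v p.1 := by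
      rintro ⟨i, a⟩ ⟨j, b⟩ e
      obtain ⟨rfl, e2⟩ := g1 i j _ _ (hs a) (hs b) e
      cases a <;> cases b <;> first | rfl | (norm_num at e2)
    have h4 := hC1 h T τ hτ F hF (Finset.univ.image
      fun p : Fin n × Bool => (if p.2 then (1 : ℝ) else -1) • v p.1) (min (3 * n) (4 * n - 3))
      fun w hw => by
        obtain ⟨⟨i, a⟩, -, rfl⟩ := Finset.mem_image.1 hw
        obtain ⟨he, hg⟩ := g2 i _ (hs a)
        obtain ⟨S₁, S₂, S₃, y₂, y₃, b1, b2, b3, b4, b5, b6, b7, b8⟩ := key _ _ he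
        have c1 := hG1 n T _ _ _ S₂ y₂ hn (B_bounded h) B_closed he b2 b4
        have c3 := hg T S₃ y₃ b3 b6 b7
        refine le_trans ?_ b8
        by_cases e : S₁.ncard ≤ 1
        · have c2 := hg T S₂ y₂ b2 b4 (b5 e)
          omega
        · omega
    rw [Finset.card_image_of_injective _ hinj, Finset.card_univ, Fintype.card_prod,
      Fintype.card_fin, Fintype.card_bool] at h4
    refine (min_le_left _ _).trans (Nat.le_of_mul_le_mul_left ?_ two_pos)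
    calc 2 * (n * min (3 * n) (4 * n - 3)) = n * 2 * min (3 * n) (4 * n - 3) := by ring
      _ ≤ _ := h4.trans hcard
  · have h4 := hC1 h T τ hτ F hF V (2 * n + 1) fun w hw => by
      obtain ⟨l₀, he⟩ := hV' w hw
      obtain ⟨S₁, S₂, S₃, y₂, y₃, b1, b2, b3, b4, -, b6, -, b8⟩ := key _ _ he
      have c1 := hG1 n T _ _ _ S₂ y₂ hn (B_bounded h) B_closed he b2 b4
      have c2 := hG1 n T _ _ _ S₃ y₃ hn (B_bounded h) B_closed he b3 b6
      omega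
    refine (min_le_right _ _).trans (Nat.le_of_mul_le_mul_left ?_ two_pos)
    calc 2 * ((n + 1) * (2 * n + 1)) = (2 * n + 2) * (2 * n + 1) := by ring
      _ ≤ V.card * (2 * n + 1) := Nat.mul_le_mul_right _ hV
      _ ≤ _ := h4.trans hcard

end

end Pool.Agent.MP_4d76c1_gt.Gam
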