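import Pool.Agent.MP_4d76c1_gt.Gam.P1
import Pool.Agent.MP_4d76c1_gt.Gam.P2
import Pool.Agent.MP_4d76c1_gt.Gam.P3

set_option autoImplicit false

namespace Pool.Agent.MP_4d76c1_gt.Gam

theorem a_main (n : ℕ) (X : Type) [MetricSpace X] [Dk n X] : A_st n X :=
  a_pf sm_pf dr_pf (p_pf e1_pf dr_pf) pl1_pf pl2_pf g1_pf g2_pf fr_pf (z0_pf e1_pf)
    (gy2_pf (kl_pf fi_pf zc_pf bu_pf pe_pf) (m1_pf fi_pf))
    (gy3_pf (ht_pf dr_pf fi_pf bu_pf pe_pf) y3_pf fr_pf (z0_pf e1_pf)) (c0_pf dr_pf) (c1_pf dr_pf)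
    cov_pf

/-- the data of a deck group written additively -/
@[reducible] def mkDk (n : ℕ) (X Γ : Type) [Group Γ] [MulAction Γ X]
    (φ : Γ →* Multiplicative (Fin n → ℤ)) (hφ : Function.Surjective φ) : Dk n X where
  Γ := Additive Γ
  grp := inferInstance
  act := inferInstance
  φ g := (φ g.toMul).toAdd
  add g h := congrArg Multiplicative.toAdd (φ.map_mul g.toMul h.toMul)
  surj z := by
    obtain ⟨g, hg⟩ := hφ (Multiplicative.ofAdd z)
    exact ⟨Additive.ofMul g, congrArg Multiplicative.toAdd hg⟩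

end Pool.Agent.MP_4d76c1_gt.Gam
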