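import Pool.Agent.MP_4d76c1_gt.Gam.St

set_option autoImplicit false

namespace Pool.Agent.MP_4d76c1_gt.Gam

section

open Filter Topology Set

variable {n : Nat} {X : Type} [MetricSpace X] [Dk n X]

theorem pl1_pf : PL1_st := by
  classical
  intro n Bs P hP hB
  have ex : ∃ k, ∃ Q : Finset (E n), Q.card = k ∧ Bs = {l | ∀ q ∈ Q, l ⬝ᵥ q ≤ 1} :=
    ⟨_, hP.toFinset, rfl, by simpa using hB⟩
  obtain ⟨Q, hQ, hBQ⟩ := Nat.find_spec ex
  refine ⟨Q, fun q hq => ?_, hBQ⟩
  obtain ⟨l, hl, hl'⟩ : ∃ l : E n, (∀ q' ∈ Q.erase q, l ⬝ᵥ q' ≤ 1) ∧ 1 < l ⬝ᵥ q := by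
    by_contra hc
    refine Nat.find_min ex (hQ ▸ Finset.card_erase_lt_of_mem hq) ⟨Q.erase q, rfl, ?_⟩
    rw [hBQ]
    refine Subset.antisymm (fun l hl q' hq' => hl q' (Finset.mem_of_mem_erase hq'))
      fun l hl q' hq' => ?_
    by_cases h : q' = q
    · rw [h]
      exact not_lt.1 fun h' => hc ⟨l, hl, h'⟩
    · exact hl q' (Finset.mem_erase.2 ⟨h, hq'⟩)
  have c0 : 0 < l ⬝ᵥ q := by linarith
  have e1 : ((l ⬝ᵥ q)⁻¹ • l) ⬝ᵥ q = 1 := by
    rw [smul_dotProduct, smul_eq_mul, inv_mul_cancel₀ c0.ne']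
  have ev : ∀ᶠ μ in 𝓝 (0 : E n), ∀ q' ∈ Q.erase q, ((l ⬝ᵥ q)⁻¹ • l + μ) ⬝ᵥ q' < 1 := by
    refine (eventually_all_finset _).2 fun q' hq' => ?_
    have hc : Continuous fun μ : E n => ((l ⬝ᵥ q)⁻¹ • l + μ) ⬝ᵥ q' :=
      (continuous_const.add continuous_id).dotProduct continuous_const
    refine hc.continuousAt.eventually_lt continuousAt_const ?_
    rw [add_zero, smul_dotProduct, smul_eq_mul, inv_mul_lt_iff₀ c0]
    linarith [hl q' hq']
  obtain ⟨ε, hε, h⟩ := Metric.eventually_nhds_iff.1 ev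
  refine ⟨(l ⬝ᵥ q)⁻¹ • l, fun m hm => ?_, e1, ε / 2, half_pos hε, fun μ h0 hμ => ?_⟩
  · rw [hBQ] at hm
    exact hm q hq
  · rw [hBQ]
    intro q' hq'
    by_cases h' : q' = q
    · rw [h', add_dotProduct, e1, h0, add_zero]
    · exact (h (by rw [dist_zero_right]; linarith) q' (Finset.mem_erase.2 ⟨h', hq'⟩)).le

theorem neg_PL {Bs : Set (E n)} (hs : ∀ l ∈ Bs, -l ∈ Bs) {q l₀ : E n} (h : Exp Bs q l₀) :
    Exp Bs (-q) (-l₀) := by
  obtain ⟨h1, h2, ρ, hρ, h3⟩ := h
  refine ⟨fun l hl => ?_, by simpa using h2, ρ, hρ, fun μ h0 hμ => ?_⟩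
  · simpa using h1 _ (hs l hl)
  · have := hs _ (h3 (-μ) (by simpa using h0) (by simpa using hμ))
    rwa [neg_add, neg_neg] at this

theorem dot_PL (φ : E n →ₗ[ℝ] ℝ) (x : E n) : (fun j => φ (Pi.single j 1)) ⬝ᵥ x = φ x := by
  conv_rhs => rw [pi_eq_sum_univ' x]
  simp [dotProduct, map_sum, mul_comm]

theorem pl2_pf : PL2_st := by
  classical
  intro n Bs Q ⟨hE, hB⟩ hbd hs
  have hspan : Submodule.span ℝ (Q : Set (E n)) = ⊤ := by
    by_contra h
    obtain ⟨φ, hφ, hle⟩ := Submodule.exists_le_ker_of_lt_top _ (lt_top_iff_ne_top.2 h)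
    obtain ⟨C, hC⟩ := hbd.exists_norm_le
    obtain ⟨l, hl⟩ : ∃ l : E n, ∀ x, l ⬝ᵥ x = φ x := ⟨_, dot_PL φ⟩
    have l0 : 0 < ‖l‖ := by
      refine norm_pos_iff.2 fun h0 => hφ (LinearMap.ext fun x => ?_)
      rw [← hl, h0]
      simp
    have h1 := hC (((|C| + 1) / ‖l‖) • l) (by
      rw [hB]
      intro q hq
      have : φ q = 0 := hle (Submodule.subset_span hq)
      rw [smul_dotProduct, hl, this]
      simp)
    rw [norm_smul, Real.norm_of_nonneg (by positivity), div_mul_cancel₀ _ l0.ne'] at h1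
    linarith [le_abs_self C]
  obtain ⟨s, hsQ, hsp, hli⟩ := exists_linearIndependent ℝ (Q : Set (E n))
  have : Fintype s := (Q.finite_toSet.subset hsQ).fintype
  let b0 : Module.Basis s ℝ (E n) := Module.Basis.mk hli (by
    rw [Subtype.range_coe, hsp, hspan])
  have hc : Fintype.card s = n := by
    rw [← Module.finrank_eq_card_basis b0]
    simp
  obtain ⟨v, f, hv, hf⟩ : ∃ v f : Fin n → E n, (∀ i, v i ∈ Q) ∧
      ∀ i j, f i ⬝ᵥ v j = if i = j then 1 else 0 := by
    refine ⟨b0.reindex (Fintype.equivFinOfCardEq hc),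
      fun i j => (b0.reindex (Fintype.equivFinOfCardEq hc)).coord i (Pi.single j 1),
      fun i => hsQ ?_, fun i j => ?_⟩
    · rw [Module.Basis.reindex_apply, Module.Basis.mk_apply]
      exact Subtype.coe_prop _
    · rw [dot_PL, Module.Basis.coord_apply, Module.Basis.repr_self, Finsupp.single_apply]
      exact if_congr eq_comm rfl rfl
  by_cases h : ∀ q ∈ Q, ∃ i, q = v i ∨ q = -v i
  · refine Or.inl ⟨v, f, hf, Subset.antisymm (fun l hl i => ?_) fun l hl => ?_⟩
    · have h1 := hs l hl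
      rw [hB] at hl h1
      have h2 := h1 _ (hv i)
      rw [neg_dotProduct] at h2
      exact abs_le.2 ⟨by linarith, hl _ (hv i)⟩
    · rw [hB]
      intro q hq
      obtain ⟨i, rfl | rfl⟩ := h q hq
      · exact (abs_le.1 (hl i)).2
      · rw [dotProduct_neg]
        linarith [(abs_le.1 (hl i)).1]
  · push Not at h
    obtain ⟨q, hq, h⟩ := h
    have vi : Function.Injective v := fun i j e => by
      by_contra hij
      have := hf i j
      rw [← e, hf i i, if_pos rfl, if_neg hij] at this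
      exact one_ne_zero this
    refine Or.inr ⟨insert q (insert (-q) (Finset.univ.image v ∪ Finset.univ.image fun i => -v i)),
      ?_, fun w hw => ?_⟩
    · rw [Finset.card_insert_of_notMem, Finset.card_insert_of_notMem, Finset.card_union_of_disjoint,
        Finset.card_image_of_injective _ vi,
        Finset.card_image_of_injective _ (f := fun i => -v i) fun i j e => vi (neg_injective e)]
      · simp only [Finset.card_univ, Fintype.card_fin]
        omega
      · refine Finset.disjoint_left.2 fun w h1 h2 => ?_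
        obtain ⟨i, -, rfl⟩ := Finset.mem_image.1 h1
        obtain ⟨j, -, e⟩ := Finset.mem_image.1 h2
        have := hf i i
        rw [← e, dotProduct_neg, hf i j, if_pos rfl] at this
        split_ifs at this <;> norm_num at this
      · intro h1
        rcases Finset.mem_union.1 h1 with h1 | h1 <;> obtain ⟨i, -, e⟩ := Finset.mem_image.1 h1
        · exact (h i).2 (by rw [e, neg_neg])
        · exact (h i).1 (neg_injective e).symm
      · intro h1
        rcases Finset.mem_insert.1 h1 with h1 | h1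
        · obtain ⟨l, -, h2, -⟩ := hE q hq
          have h3 : l ⬝ᵥ q = l ⬝ᵥ (-q) := congrArg _ h1
          rw [dotProduct_neg, h2] at h3
          norm_num at h3
        · rcases Finset.mem_union.1 h1 with h1 | h1 <;> obtain ⟨i, -, e⟩ := Finset.mem_image.1 h1
          · exact (h i).1 e.symm
          · exact (h i).2 e.symm
    · have ng : ∀ u ∈ Q, ∃ l₀, Exp Bs (-u) l₀ := fun u hu => by
        obtain ⟨l, hl⟩ := hE u hu
        exact ⟨_, neg_PL hs hl⟩
      rcases Finset.mem_insert.1 hw with rfl | hw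
      · exact hE _ hq
      rcases Finset.mem_insert.1 hw with rfl | hw
      · exact ng _ hq
      rcases Finset.mem_union.1 hw with hw | hw <;> obtain ⟨i, -, rfl⟩ := Finset.mem_image.1 hw
      exacts [hE _ (hv i), ng _ (hv i)]

end

section

open Filter Topology Set

variable {n : Nat} {X : Type} [MetricSpace X] [Dk n X]

theorem neg_G {T : Type} {Bs : Set (E n)} {v l₀ : E n} {S : Set T} {y : T → E n}
    (hb : Bornology.IsBounded Bs) (hc : IsClosed Bs) (he : Exp Bs v l₀) (hg : Guard Bs v l₀ S y)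
    {μ : E n} (h0 : μ ≠ 0) (hμ : μ ⬝ᵥ v = 0) : ∃ t ∈ S, μ ⬝ᵥ y t < 0 := by
  obtain ⟨-, -, ρ, hρ, hE⟩ := he
  obtain ⟨C, hC⟩ := isBounded_iff_forall_norm_le.1 hb
  have hn : 0 < ‖μ‖ := norm_pos_iff.2 h0
  set A : Set ℝ := {r | 0 ≤ r ∧ l₀ + r • μ ∈ Bs} with hA
  have hcl : IsClosed A :=
    isClosed_Ici.inter (hc.preimage (f := fun r : ℝ => l₀ + r • μ) (by fun_prop))
  have hbd : BddAbove A := ⟨(C + ‖l₀‖) / ‖μ‖, fun r hr => by
    rw [le_div_iff₀ hn]
    have h1 := hC _ hr.2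
    have h2 := norm_sub_le (l₀ + r • μ) l₀
    rw [add_sub_cancel_left, norm_smul, Real.norm_of_nonneg hr.1] at h2
    linarith⟩
  have hr0 : ρ / ‖μ‖ ∈ A := ⟨by positivity, hE _ (by rw [smul_dotProduct, hμ, smul_zero]) (by
    rw [norm_smul, Real.norm_of_nonneg (by positivity), div_mul_cancel₀ _ hn.ne'])⟩
  have hR : sSup A ∈ A := hcl.csSup_mem ⟨_, hr0⟩ hbd
  have hRp : 0 < sSup A := lt_of_lt_of_le (by positivity) (le_csSup hbd hr0)
  obtain ⟨t, ht, h⟩ := hg.2 (sSup A • μ) (by rw [smul_dotProduct, hμ, smul_zero]) hR.2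
    fun η hη hm => by
      rw [smul_smul] at hm
      have h1 : (1 + η) * sSup A ∈ A := ⟨by positivity, hm⟩
      have h2 := le_csSup hbd h1
      nlinarith
  refine ⟨t, ht, ?_⟩
  have h1 := hg.1 t ht
  rw [add_dotProduct, smul_dotProduct, smul_eq_mul] at h
  by_contra hcon
  have := mul_nonneg hRp.le (not_lt.1 hcon)
  linarith

theorem orth_G (W : Finset (E n)) (hW : W.card < n) : ∃ μ : E n, μ ≠ 0 ∧ ∀ w ∈ W, μ ⬝ᵥ w = 0 := by
  have h := LinearMap.ker_ne_bot_of_finrank_lt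
    (f := Matrix.mulVecLin (Matrix.of fun (w : W) (i : Fin n) => w.1 i)) (by simpa using hW)
  obtain ⟨μ, hμ, h0⟩ := Submodule.exists_mem_ne_zero_of_ne_bot h
  refine ⟨μ, h0, fun w hw => ?_⟩
  have := congrFun (LinearMap.mem_ker.1 hμ) ⟨w, hw⟩
  rw [dotProduct_comm]
  exact this

theorem g1_pf : G1_st := by
  intro n T Bs v l₀ S y hn hb hc he hS hg
  classical
  by_contra hlt
  rw [not_le] at hlt
  rcases S.eq_empty_or_nonempty with rfl | ⟨t₀, ht₀⟩
  · obtain ⟨μ, h0, hμ⟩ := orth_G {v} (by rw [Finset.card_singleton]; omega)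
    obtain ⟨t, ht, -⟩ := neg_G hb hc he hg h0 (hμ v (Finset.mem_singleton_self v))
    exact ht
  · have hcard : (insert v ((hS.toFinset.erase t₀).image y)).card < n := by
      have h1 := Finset.card_insert_le v ((hS.toFinset.erase t₀).image y)
      have h2 := Finset.card_image_le (s := hS.toFinset.erase t₀) (f := y)
      have h3 := Finset.card_erase_add_one (hS.mem_toFinset.2 ht₀)
      rw [Set.ncard_eq_toFinset_card S hS] at hlt
      omega
    obtain ⟨μ, h0, hμ⟩ := orth_G _ hcard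
    have hv : μ ⬝ᵥ v = 0 := hμ v (Finset.mem_insert_self _ _)
    have hy : ∀ t ∈ S, t ≠ t₀ → μ ⬝ᵥ y t = 0 := fun t ht e => hμ _ (Finset.mem_insert_of_mem
      (Finset.mem_image_of_mem y (Finset.mem_erase.2 ⟨e, hS.mem_toFinset.2 ht⟩)))
    obtain ⟨t, ht, h⟩ := neg_G hb hc he hg h0 hv
    obtain ⟨t', ht', h'⟩ := neg_G hb hc he hg (neg_ne_zero.2 h0)
      (by rw [neg_dotProduct, hv, neg_zero])
    rw [neg_dotProduct] at h'
    have e1 : t = t₀ := by
      by_contra e
      exact h.ne (hy t ht e)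
    have e2 : t' = t₀ := by
      by_contra e
      rw [hy t' ht' e] at h'
      simp at h'
    rw [e1] at h
    rw [e2] at h'
    linarith

theorem sgn_G (b : Bool) : |(if b then 1 else -1 : ℝ)| = 1 := by cases b <;> simp

theorem g2_pf : G2_st := by
  intro n Bs v f hC
  obtain ⟨hd, rfl⟩ := hC
  have hii : ∀ i, f i ⬝ᵥ v i = 1 := fun i => by rw [hd, if_pos rfl]
  have hij : ∀ i j, i ≠ j → f i ⬝ᵥ v j = 0 := fun i j e => by rw [hd, if_neg e]
  refine ⟨fun i j σ σ' hσ _ e => ?_, fun i σ hσ => ?_⟩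
  · have h := congrArg (fun w => f i ⬝ᵥ w) e
    simp only [dotProduct_smul, smul_eq_mul, hii, mul_one] at h
    by_cases hh : i = j
    · subst hh
      rw [hii, mul_one] at h
      exact ⟨rfl, h⟩
    · rw [hij i j hh, mul_zero] at h
      rcases hσ with h' | h' <;> rw [h'] at h <;> norm_num at h
  have hσa : |σ| = 1 := by rcases hσ with h | h <;> simp [h]
  have hσ2 : σ * σ = 1 := by rcases hσ with h | h <;> simp [h]
  have hσ0 : σ ≠ 0 := by rcases hσ with h | h <;> simp [h]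
  refine ⟨⟨fun l hl => ?_, ?_, 1 / (n * ‖v‖ + 1), by positivity, fun μ hμ hρ j => ?_⟩, ?_⟩
  · rw [dotProduct_smul, smul_eq_mul]
    refine (le_abs_self _).trans ?_
    rw [abs_mul, hσa, one_mul]
    exact hl i
  · rw [dotProduct_smul, smul_dotProduct, hii, smul_eq_mul, smul_eq_mul, mul_one, hσ2]
  · rw [dotProduct_smul, smul_eq_mul, mul_eq_zero] at hμ
    rw [add_dotProduct, smul_dotProduct, smul_eq_mul]
    by_cases hh : i = j
    · subst hh
      rw [hii, hμ.resolve_left hσ0, mul_one, add_zero, hσa]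
    · rw [hij i j hh, mul_zero, zero_add]
      refine (abs_dot_le _ _).trans ?_
      have h1 : ‖v j‖ ≤ ‖v‖ := norm_le_pi_norm v j
      have h2 : (0 : ℝ) < n * ‖v‖ + 1 := by positivity
      rw [le_div_iff₀ h2] at hρ
      have h3 : (n : ℝ) * ‖μ‖ * ‖v j‖ ≤ n * ‖μ‖ * ‖v‖ :=
        mul_le_mul_of_nonneg_left h1 (by positivity)
      nlinarith [norm_nonneg μ]
  intro T S y hS hg hp
  have hex : ∀ p : {j : Fin n // j ≠ i} × Bool, ∃ t ∈ S,
      (σ • f i + (if p.2 then 1 else -1 : ℝ) • f p.1) ⬝ᵥ y t ≤ 0 := fun p => by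
    refine hg.2 _ ?_ (fun k => ?_) fun η hη hm => ?_
    · rw [dotProduct_smul, smul_dotProduct, hij _ _ p.1.2, smul_zero, smul_zero]
    · rw [add_dotProduct, smul_dotProduct, smul_dotProduct, smul_eq_mul, smul_eq_mul]
      by_cases hk : i = k
      · subst hk
        rw [hii, hij _ _ p.1.2, mul_one, mul_zero, add_zero, hσa]
      · rw [hij _ _ hk, mul_zero, zero_add, abs_mul, sgn_G, one_mul, hd]
        split_ifs <;> simp
    · have := hm p.1
      rw [add_dotProduct, smul_dotProduct, smul_dotProduct, smul_dotProduct, hii,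
        hij _ _ p.1.2.symm, smul_zero, zero_add, smul_eq_mul, smul_eq_mul, mul_one, abs_mul,
        sgn_G, mul_one, abs_of_pos (by positivity)] at this
      linarith
  choose t ht hle using hex
  have hinj : Function.Injective t := by
    rintro ⟨⟨j, hj⟩, b⟩ ⟨⟨j', hj'⟩, b'⟩ e
    have h1 := hle ⟨⟨j, hj⟩, b⟩
    have h2 := hle ⟨⟨j', hj'⟩, b'⟩
    have h3 := hg.1 _ (ht ⟨⟨j', hj'⟩, b'⟩)
    have h4 := hp _ (ht ⟨⟨j', hj'⟩, b'⟩)
    rw [e] at h1
    generalize y (t ⟨⟨j', hj'⟩, b'⟩) = w at h1 h2 h3 h4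
    simp only [add_dotProduct, smul_dotProduct, smul_eq_mul] at h1 h2 h3
    by_cases hh : j = j'
    · subst hh
      by_contra hne
      have hb : b ≠ b' := fun e' => hne (by rw [e'])
      cases b <;> cases b' <;> simp at hb h1 h2 <;> linarith
    · exfalso
      have h5 := h4 (σ • f i + (if b then 1 else -1 : ℝ) • f j + (if b' then 1 else -1 : ℝ) • f j')
        (fun k => by
          simp only [add_dotProduct, smul_dotProduct, smul_eq_mul]
          by_cases hk : i = k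
          · subst hk
            rw [hii, hij _ _ hj, hij _ _ hj', mul_one, mul_zero, mul_zero, add_zero, add_zero, hσa]
          · rw [hij _ _ hk, mul_zero, zero_add]
            by_cases hk' : j = k
            · subst hk'
              rw [hii, hij _ _ (Ne.symm hh), mul_zero, add_zero, mul_one, sgn_G]
            · rw [hij _ _ hk', mul_zero, zero_add, abs_mul, sgn_G, one_mul, hd]
              split_ifs <;> simp)
        (by
          simp only [add_dotProduct, smul_dotProduct, dotProduct_smul, smul_eq_mul]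
          rw [hii, hij _ _ hj, hij _ _ hj']
          linarith)
      simp only [add_dotProduct, smul_dotProduct, smul_eq_mul] at h5
      linarith
  have h := Set.ncard_le_ncard_of_injOn (s := univ) t (fun p _ => ht p) hinj.injOn hS
  rw [Set.ncard_univ, Nat.card_prod, Nat.card_eq_fintype_card, Nat.card_eq_fintype_card,
    Fintype.card_bool, Fintype.card_subtype_compl, Fintype.card_fin, Fintype.card_subtype_eq] at h
  omega

end

section

open Filter Topology Set

variable {n : Nat} {X : Type} [MetricSpace X] [Dk n X]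

theorem aff_SM (h : Sp n X) : ∃ (x₀ : X) (M : ℝ), 0 < M ∧
    ∀ k : G n X, ‖cv k‖ ≤ M * (dist x₀ (k +ᵥ x₀) + 3) := by
  obtain ⟨x₀, R, hR⟩ := h.coc
  have hR0 : 0 ≤ R := (hR x₀).elim fun k hk => dist_nonneg.trans hk
  obtain ⟨M₀, hM₀⟩ := ((h.pd x₀ (2 * R + 1)).image fun k => ‖cv k‖).bddAbove
  have hM : ∀ k : G n X, dist (k +ᵥ x₀) x₀ ≤ 2 * R + 1 → ‖cv k‖ ≤ max M₀ 1 := fun k hk =>
    (hM₀ ⟨k, by rwa [mem_ofPred_eq, dist_comm], rfl⟩).trans (le_max_left _ _)
  have h0 : 0 < max M₀ 1 := one_pos.trans_le (le_max_right _ _)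
  refine ⟨x₀, max M₀ 1, h0, fun k => ?_⟩
  generalize max M₀ 1 = M at hM h0
  have h1 := Nat.le_ceil (dist x₀ (k +ᵥ x₀))
  have h2 := Nat.ceil_lt_add_one (dist_nonneg (x := x₀) (y := k +ᵥ x₀))
  obtain ⟨p, hp, p0, p1⟩ := h.len x₀ (k +ᵥ x₀) ((⌈dist x₀ (k +ᵥ x₀)⌉₊ + 1 : ℕ) : ℝ)
    (by push_cast; linarith)
  have key : ∀ (j : ℕ) (k : G n X), dist (k +ᵥ p j) x₀ ≤ R → ‖cv k‖ ≤ M * (j + 1) := by
    intro j
    induction j with
    | zero =>
      intro k hk
      rw [Nat.cast_zero, p0] at hk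
      simpa using hM k (by linarith)
    | succ j ih =>
      intro k hk
      obtain ⟨k', hk'⟩ := hR (p j)
      have a1 : dist ((k - k') +ᵥ x₀) (k +ᵥ p j) ≤ R := by
        rw [show k +ᵥ p j = (k - k') +ᵥ (k' +ᵥ p j) by rw [← add_vadd, sub_add_cancel], h.iso,
          dist_comm]
        exact hk'
      have a2 : dist (k +ᵥ p j) (k +ᵥ p (j + 1 : ℕ)) ≤ 1 := by
        rw [h.iso]
        refine (lip_path hp (by push_cast; linarith)).trans_eq ?_
        push_cast; ring
      have a3 := dist_triangle4 ((k - k') +ᵥ x₀) (k +ᵥ p j) (k +ᵥ p (j + 1 : ℕ)) x₀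
      have a4 := hM (k - k') (by linarith)
      have a5 := norm_add_le (cv (k - k')) (cv k')
      rw [← cv_add, sub_add_cancel] at a5
      have a6 := ih k' hk'
      push_cast
      linarith
  have h3 := key _ (-k) (by rw [p1, neg_vadd_vadd, dist_self]; exact hR0)
  rw [cv_neg, norm_neg] at h3
  refine h3.trans (mul_le_mul_of_nonneg_left ?_ h0.le)
  push_cast
  linarith

theorem lin_SM (h : Sp n X) : ∃ (x₀ : X) (M : ℝ), 0 < M ∧
    ∀ k : G n X, ‖cv k‖ ≤ M * dist x₀ (k +ᵥ x₀) := by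
  obtain ⟨x₀, M, hM, h1⟩ := aff_SM h
  refine ⟨x₀, M, hM, fun k => ?_⟩
  have a1 : ∀ N : ℕ, dist x₀ ((N • k) +ᵥ x₀) ≤ N * dist x₀ (k +ᵥ x₀) := fun N => by
    induction N with
    | zero => simp
    | succ N ih =>
      have := dist_triangle x₀ ((N • k) +ᵥ x₀) ((N • k) +ᵥ (k +ᵥ x₀))
      rw [h.iso] at this
      rw [succ_nsmul, add_vadd]
      push_cast
      linarith
  have a2 : ∀ N : ℕ, ‖cv (N • k)‖ = N * ‖cv k‖ := fun N => by
    have : cv (N • k) = (N : ℝ) • cv k := cv_nsmul N k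
    rw [this, norm_smul, Real.norm_natCast]
  by_contra hc
  have hd := sub_pos.2 (not_le.1 hc)
  obtain ⟨N, hN⟩ := exists_nat_gt (3 * M / (‖cv k‖ - M * dist x₀ (k +ᵥ x₀)))
  rw [div_lt_iff₀ hd] at hN
  have a3 := h1 (N • k)
  have a4 := mul_le_mul_of_nonneg_left (a1 N) hM.le
  rw [a2] at a3
  linarith

theorem sm_pf : SM_st n X := by
  intro h
  obtain ⟨x₀, M, hM, h1⟩ := lin_SM h
  have e : ∀ (i : Fin n) (k : G n X), (Pi.single i M⁻¹ : E n) ⬝ᵥ cv k = M⁻¹ * cv k i :=
    fun i k => single_dotProduct _ _ _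
  have h2 : ∀ i : Fin n, ∃ u : X → ℝ, Cal (Pi.single i M⁻¹ : E n) u := fun i =>
    h.cal (x₁ := x₀) fun k => by
      rw [e, inv_mul_le_iff₀ hM]
      exact (le_abs_self _).trans ((norm_le_pi_norm (cv k) i).trans (h1 k))
  choose u hu using h2
  refine ⟨fun x i => M * u i x, ⟨⟨M, hM.le⟩, LipschitzWith.of_dist_le_mul fun x y => ?_⟩,
    fun k x => funext fun i => ?_⟩
  · change _ ≤ M * dist x y
    refine (dist_pi_le_iff (by positivity)).2 fun i => ?_
    have := (hu i).1.dist_le_mul x y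
    rw [NNReal.coe_one, one_mul, Real.dist_eq] at this
    rw [Real.dist_eq, ← mul_sub, abs_mul, abs_of_pos hM]
    exact mul_le_mul_of_nonneg_left this hM.le
  · change M * u i (k +ᵥ x) = M * u i x + cv k i
    rw [(hu i).2, e, mul_add, mul_inv_cancel_left₀ hM.ne']

end

section

open Filter Topology Set

variable {n : Nat} {X : Type} [MetricSpace X] [Dk n X]

theorem win_E1 (h : Sp n X) {l : E n} {u : X → ℝ} (hu : Cal l u)
    (hb : ∀ η : ℝ, 0 < η → (1 + η) • l ∉ B n X) {W ε : ℝ} (hW : 0 < W) (hε : 0 < ε) :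
    ∃ p : ℝ → X, LipschitzWith 1 p ∧ W - ε ≤ u (p W) - u (p 0) := by
  obtain ⟨η, η0, hη⟩ : ∃ η : ℝ, 0 < η ∧ η * W = ε / 2 :=
    ⟨ε / (2 * W), by positivity, by field_simp⟩
  obtain ⟨x, k, hk⟩ : ∃ (x : X) (k : G n X), dist x (k +ᵥ x) < (1 + η) * (l ⬝ᵥ cv k) := by
    by_contra hn
    push Not at hn
    exact hb η η0 fun x k => by rw [smul_dotProduct]; exact hn x k
  obtain ⟨a, ha⟩ : ∃ a, a = l ⬝ᵥ cv k := ⟨_, rfl⟩
  rw [← ha] at hk
  have a0 : 0 < a := (mul_pos_iff_of_pos_left (by positivity)).1 (dist_nonneg.trans_lt hk)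
  have hN : ∀ N : ℕ, dist x ((N • k) +ᵥ x) ≤ N * dist x (k +ᵥ x) ∧
      u ((N • k) +ᵥ x) = u x + N * a := fun N => by
    induction N with
    | zero => simp
    | succ N ih =>
      constructor
      · have := dist_triangle x ((N • k) +ᵥ x) ((N • k) +ᵥ (k +ᵥ x))
        rw [h.iso] at this
        rw [succ_nsmul, add_vadd]
        push_cast
        linarith [ih.1]
      · rw [succ_nsmul', add_vadd, hu.2, ih.2, ← ha]
        push_cast
        ring
  obtain ⟨N, hN'⟩ := exists_nat_gt (2 * W ^ 2 / (ε * a))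
  have N0 : (0 : ℝ) < N := lt_of_le_of_lt (by positivity) hN'
  rw [div_lt_iff₀ (by positivity)] at hN'
  obtain ⟨J, J1, J2⟩ : ∃ J : ℕ, N * ((1 + η) * a) ≤ J * W ∧ J * W < N * ((1 + η) * a) + W := by
    refine ⟨⌈N * ((1 + η) * a) / W⌉₊, (div_le_iff₀ hW).1 (Nat.le_ceil _), ?_⟩
    have := mul_lt_mul_of_pos_right
      (Nat.ceil_lt_add_one (show 0 ≤ N * ((1 + η) * a) / W by positivity)) hW
    rwa [add_mul _ 1 W, div_mul_cancel₀ _ hW.ne', one_mul W] at this
  obtain ⟨p, hp, p0, p1⟩ := h.len x ((N • k) +ᵥ x) (J * W)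
    ((hN N).1.trans_lt ((mul_lt_mul_of_pos_left hk N0).trans_le J1))
  by_contra hn
  push Not at hn
  have key : ∀ j : ℕ, u (p (j * W)) - u (p 0) ≤ j * (W - ε) := fun j => by
    induction j with
    | zero => simp
    | succ j ih =>
      have := hn _ (lip_shift hp (j * W))
      rw [zero_add] at this
      push_cast
      rw [add_mul, one_mul, add_comm _ W]
      linarith
  have e := key J
  rw [p1, p0, (hN N).2] at e
  have h1 : N * a ≤ J * W := by nlinarith [mul_pos N0 (mul_pos η0 a0)]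
  have h2 : J * ε * W < (N * η * a + W) * W := mul_lt_mul_of_pos_right (by linarith) hW
  have h3 : N * a * ε ≤ J * W * ε := mul_le_mul_of_nonneg_right h1 hε.le
  have h4 : N * η * a * W = N * a * (ε / 2) := by rw [← hη]; ring
  nlinarith

theorem e1_pf : E1_st n X := fun h l u hu hb => by
  have hq : ∀ m : ℕ, ∃ q : ℝ → X, LipschitzWith 1 q ∧ ∀ s t : ℝ, -((m : ℝ) + 1) ≤ s → s ≤ t →
      t ≤ m + 1 → t - s - 1 / ((m : ℝ) + 1) ≤ u (q t) - u (q s) := fun m => by
    obtain ⟨p, hp, e⟩ := win_E1 h hu hb (W := 2 * ((m : ℝ) + 1)) (ε := 1 / ((m : ℝ) + 1))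
      (by positivity) (by positivity)
    refine ⟨_, lip_shift hp (m + 1), fun s t h1 _ h3 => ?_⟩
    have a := (lip_sub hu.1 _ _).trans (lip_path hp (show 0 ≤ s + (m + 1) by linarith))
    have b := (lip_sub hu.1 _ _).trans
      (lip_path hp (show t + (m + 1) ≤ 2 * ((m : ℝ) + 1) by linarith))
    linarith
  choose q q1 q2 using hq
  obtain ⟨k, c, hc, hl⟩ := h.lim q q1
  have low : ∀ s t, s ≤ t → t - s ≤ u (c t) - u (c s) := fun s t e => by
    have a := ((hu.1.continuous.tendsto _).comp (hl t)).sub ((hu.1.continuous.tendsto _).comp (hl s))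
    have b := (tendsto_const_nhds (x := t - s)).sub
      ((tendsto_one_div_add_atTop_nhds_zero_nat (𝕜 := ℝ)).mono_left UU_le)
    rw [sub_zero] at b
    refine le_of_tendsto_of_tendsto b a ?_
    filter_upwards [UU_le ((tendsto_natCast_atTop_atTop (R := ℝ)).eventually_ge_atTop
      (max (-s) t))] with m hm
    have := q2 m s t (by linarith [le_max_left (-s) t]) e (by linarith [le_max_right (-s) t])
    simp only [Function.comp, hu.2]
    linarith
  have eq : ∀ s t, s ≤ t → u (c t) - u (c s) = t - s := fun s t e =>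
    le_antisymm ((lip_sub hu.1 _ _).trans (lip_path hc e)) (low s t e)
  refine ⟨c, isometry_of_le hc fun s t e => (low s t e).trans (lip_sub hu.1 _ _), fun s t => ?_⟩
  rcases le_total s t with e | e
  · exact eq s t e
  · linarith [eq t s e]

theorem z0_pf (hE : E1_st n X) : Z0_st n X := fun h v l₀ Ψ A f hx => by
  obtain ⟨c, hc, e⟩ := hE h l₀ _ f.cal fun η hη hB => by
    have := hx.1 _ hB
    rw [smul_dotProduct, f.one, smul_eq_mul] at this
    linarith
  have key : ∀ s t, s ≤ t → De v Ψ c s = De v Ψ c t := fun s t r => by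
    have h1 := f.De_le hc.lipschitz r
    have h2 := e s t
    rw [f.dot_De f.one, f.dot_De f.one,
      show t - l₀ ⬝ᵥ Ψ (c t) - (s - l₀ ⬝ᵥ Ψ (c s)) = 0 by linarith, mul_zero] at h1
    exact (sub_eq_zero.1 (norm_le_zero_iff.1 h1)).symm
  exact ⟨c, hc, fun s t => (le_total s t).elim (key s t) fun r => (key t s r).symm⟩

end

section

open Filter Topology Set

variable {n : Nat} {X : Type} [MetricSpace X] [Dk n X]

theorem inv_DR : Tendsto (fun j : ℕ => (j : ℝ)⁻¹) UU (𝓝 0) :=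
  tendsto_inv_atTop_nhds_zero_nat.mono_left UU_le

theorem same_DR {a b : ℕ → E n} {C : ℝ} {w : E n} (h : ∀ j, ‖b j - a j‖ ≤ C)
    (ha : Tendsto (fun j : ℕ => (j : ℝ)⁻¹ • a j) UU (𝓝 w)) :
    Tendsto (fun j : ℕ => (j : ℝ)⁻¹ • b j) UU (𝓝 w) := by
  have h1 : Tendsto (fun j : ℕ => (j : ℝ)⁻¹ • (b j - a j)) UU (𝓝 0) := by
    have h2 := inv_DR.mul_const C
    rw [zero_mul] at h2
    refine squeeze_zero_norm (fun j => ?_) h2
    rw [norm_smul, Real.norm_of_nonneg (by positivity)]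
    exact mul_le_mul_of_nonneg_left (h j) (by positivity)
  have h3 := ha.add h1
  rw [add_zero] at h3
  exact h3.congr fun j => by rw [← smul_add, add_sub_cancel]

theorem lim_DR {f : ℕ → ℝ} {a C x : ℝ} (h : ∀ j : ℕ, f j ≤ a * j + C)
    (hf : Tendsto (fun j : ℕ => (j : ℝ)⁻¹ * f j) UU (𝓝 x)) : x ≤ a := by
  have h2 := (inv_DR.mul_const C).const_add a
  rw [zero_mul, add_zero] at h2
  refine le_of_tendsto_of_tendsto hf h2 ?_
  filter_upwards [UU_le (eventually_gt_atTop 0)] with j hj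
  have hj' : (0 : ℝ) < j := by exact_mod_cast hj
  refine (mul_le_mul_of_nonneg_left (h j) (by positivity)).trans (le_of_eq ?_)
  field_simp

theorem dr_pf : DR_st n X := by
  intro h F hF c hc
  obtain ⟨K, hK⟩ := hF.1
  have hL : ∀ s t, ‖F (c s) - F (c t)‖ ≤ K * |s - t| := fun s t => by
    have h1 := hK.dist_le_mul (c s) (c t)
    have h2 := hc.dist_le_mul s t
    rw [NNReal.coe_one, one_mul, Real.dist_eq] at h2
    rw [dist_eq_norm] at h1
    exact h1.trans (mul_le_mul_of_nonneg_left h2 K.coe_nonneg)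
  refine ⟨?_, fun w hw => ⟨?_, fun F' hF' => ?_, fun l a C hl => ?_, fun v a C hv => ?_⟩⟩
  · obtain ⟨w, -, hw⟩ := ulim (x := fun j : ℕ => (j : ℝ)⁻¹ • (F (c 0) - F (c (-j))))
      (isCompact_closedBall (0 : E n) K) (Eventually.of_forall fun j => by
        rw [mem_closedBall_zero_iff, norm_smul, Real.norm_of_nonneg (by positivity)]
        refine (mul_le_mul_of_nonneg_left (hL 0 (-j)) (by positivity)).trans ?_
        rw [zero_sub, neg_neg, Nat.abs_cast, mul_comm (K : ℝ), ← mul_assoc]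
        exact mul_le_of_le_one_left K.coe_nonneg (inv_mul_le_one_of_le₀ le_rfl (by positivity)))
    exact ⟨w, hw⟩
  · rintro c' ⟨k, b, e⟩
    refine same_DR (C := K * |b| + K * |b|) (fun j => ?_) hw
    have h1 := hL (0 + b) 0
    have h2 := hL (-j + b) (-j)
    rw [add_sub_cancel_left] at h1 h2
    rw [e, e, hF.2, hF.2]
    have e2 : F (c (0 + b)) + cv k - (F (c (-j + b)) + cv k) - (F (c 0) - F (c (-j))) =
        (F (c (0 + b)) - F (c 0)) - (F (c (-j + b)) - F (c (-j))) := by abel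
    rw [e2]
    exact (norm_sub_le _ _).trans (add_le_add h1 h2)
  · obtain ⟨C, -, hC⟩ := h.bdd_eqv hF' hF
    refine same_DR (C := C + C) (fun j => ?_) hw
    have e2 : F' (c 0) - F' (c (-j)) - (F (c 0) - F (c (-j))) =
        (F' (c 0) - F (c 0)) - (F' (c (-j)) - F (c (-j))) := by abel
    rw [e2]
    exact (norm_sub_le _ _).trans (add_le_add (hC _) (hC _))
  · refine lim_DR (fun j => hl j j.cast_nonneg) ?_
    exact (((cont_dot l).tendsto w).comp hw).congr fun j => by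
      simp only [Function.comp, dotProduct_smul, smul_eq_mul]
  · refine lim_DR (fun j => hv j j.cast_nonneg) ?_
    refine (hw.const_sub v).norm.congr' ?_
    filter_upwards [UU_le (eventually_gt_atTop 0)] with j hj
    have hj' : (0 : ℝ) < j := by exact_mod_cast hj
    rw [← Real.norm_of_nonneg (inv_nonneg.2 hj'.le), ← norm_smul, Real.norm_of_nonneg
      (inv_nonneg.2 hj'.le), smul_sub (j : ℝ)⁻¹ ((j : ℝ) • v), inv_smul_smul₀ hj'.ne']

end

section

open Filter Topology Set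

variable {n : Nat} {X : Type} [MetricSpace X] [Dk n X]

theorem star_P {l : E n} (hl : l ∈ B n X) {r : ℝ} (h0 : 0 ≤ r) (h1 : r ≤ 1) : r • l ∈ B n X :=
  fun x k => by
    have a := mul_le_mul_of_nonneg_left (hl x k) h0
    have b := mul_le_of_le_one_left (dist_nonneg (x := x) (y := k +ᵥ x)) h1
    rw [smul_dotProduct, smul_eq_mul]
    linarith

theorem p_pf (hE : E1_st n X) (hDR : DR_st n X) : P_st n X := by
  intro h F hF
  ext l
  constructor
  · rintro hl w ⟨c, hc, hw⟩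
    obtain ⟨u, hu⟩ := h.cal' hl
    obtain ⟨C, -, hC⟩ := h.bdd_cal hF hu
    refine ((hDR h F hF c hc.lipschitz).2 w hw).2.2.1 l 1 (2 * C) fun t ht => ?_
    have a := abs_le.1 (hC (c 0))
    have b := abs_le.1 (hC (c (-t)))
    have d := lip_sub hu.1 (c (-t)) (c 0)
    have e := lip_path hc.lipschitz (show -t ≤ 0 by linarith)
    rw [dotProduct_sub]
    linarith [a.2, b.1]
  · intro hl
    by_contra hn
    have hK : IsCompact (Icc (0 : ℝ) 1 ∩ (fun t : ℝ => t • l) ⁻¹' B n X) :=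
      isCompact_Icc.inter_right (B_closed.preimage (continuous_id.smul continuous_const))
    obtain ⟨K, hK'⟩ := hF.lip_dot l
    have hK0 : (0 : ℝ) < K + 1 := by positivity
    have h0 : ((K : ℝ) + 1)⁻¹ ∈ Icc (0 : ℝ) 1 ∩ (fun t : ℝ => t • l) ⁻¹' B n X := by
      refine ⟨⟨by positivity, inv_le_one_of_one_le₀ (by linarith [K.coe_nonneg])⟩, fun x k => ?_⟩
      have a := hK'.dist_le_mul (k +ᵥ x) x
      rw [hF.2, dotProduct_add, Real.dist_eq, add_sub_cancel_left, dist_comm] at a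
      rw [smul_dotProduct, smul_eq_mul, inv_mul_le_iff₀ hK0]
      nlinarith [le_abs_self (l ⬝ᵥ cv k), dist_nonneg (x := x) (y := k +ᵥ x)]
    obtain ⟨s, ⟨⟨-, hs1⟩, hs⟩, hmax⟩ := hK.exists_isGreatest ⟨_, h0⟩
    have hs0 : 0 < s := (inv_pos.2 hK0).trans_le (hmax h0)
    have hs : s • l ∈ B n X := hs
    have hs2 : s < 1 := lt_of_le_of_ne hs1 fun e => hn (by rwa [e, one_smul] at hs)
    obtain ⟨u, hu⟩ := h.cal' hs
    obtain ⟨c, hc, hcal⟩ := hE h _ u hu fun η hη hB => by
      have hp : 0 < (1 + η) * s := by positivity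
      have hr : s < min ((1 + η) * s) 1 := lt_min (by nlinarith) hs2
      have a := star_P hB (r := min ((1 + η) * s) 1 / ((1 + η) * s))
        (div_nonneg (hs0.trans hr).le hp.le) ((div_le_one hp).2 (min_le_left _ _))
      rw [smul_smul (1 + η), smul_smul, div_mul_cancel₀ _ hp.ne'] at a
      exact absurd (hmax ⟨⟨(hs0.trans hr).le, min_le_right _ _⟩, a⟩) (not_le.2 hr)
    obtain ⟨⟨w, hw⟩, hd⟩ := hDR h F hF c hc.lipschitz
    obtain ⟨C, -, hC⟩ := h.bdd_cal hF hu
    have a := (hd w hw).2.2.1 (-(s • l)) (-1) (2 * C) fun t _ => by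
      have a := abs_le.1 (hC (c 0))
      have b := abs_le.1 (hC (c (-t)))
      have d := hcal (-t) 0
      rw [neg_dotProduct, dotProduct_sub]
      linarith [a.1, b.2]
    have b := hl w ⟨c, hc, hw⟩
    rw [neg_dotProduct, smul_dotProduct, smul_eq_mul] at a
    nlinarith

end

section

open Filter Topology Set

variable {n : Nat} {X : Type} [MetricSpace X] [Dk n X]

theorem norm_FR (v l₀ d : E n) {m D : ℝ} (hm : 0 ≤ m) (hd : ‖d‖ ≤ D) :
    ‖m • v - d + (l₀ ⬝ᵥ d) • v‖ ≤ ‖v‖ * m + (1 + n * ‖l₀‖ * ‖v‖) * D := by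
  have h1 := norm_add_le (m • v - d) ((l₀ ⬝ᵥ d) • v)
  have h2 := norm_sub_le (m • v) d
  rw [norm_smul, Real.norm_eq_abs] at h1 h2
  rw [abs_of_nonneg hm] at h2
  have h3 : |l₀ ⬝ᵥ d| ≤ n * ‖l₀‖ * D :=
    (abs_dot_le l₀ d).trans (mul_le_mul_of_nonneg_left hd (by positivity))
  have h4 := mul_le_mul_of_nonneg_right h3 (norm_nonneg v)
  linarith

theorem fr_pf : FR_st n X := by
  intro h v l₀ ⟨_, h1, ρ, hρ, hB⟩
  have hn : (0 : ℝ) < n := by
    rcases Nat.eq_zero_or_pos n with rfl | hn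
    · simp at h1
    · exact_mod_cast hn
  obtain ⟨lam, hlam⟩ : ∃ lam : Fin n → E n, ∀ i y, lam i ⬝ᵥ y = y i - v i * (l₀ ⬝ᵥ y) :=
    ⟨fun i => Pi.single i 1 - v i • l₀, fun i y => by
      rw [sub_dotProduct, single_dotProduct, smul_dotProduct, one_mul, smul_eq_mul]⟩
  have hM : 0 < ‖lam‖ + 1 := by positivity
  obtain ⟨r, hr⟩ : ∃ r : ℝ, r = ρ / (‖lam‖ + 1) := ⟨_, rfl⟩
  have hr0 : 0 < r := by rw [hr]; positivity
  have hn1 : ∀ i, ‖r • lam i‖ ≤ ρ := fun i => by
    rw [norm_smul, Real.norm_eq_abs, abs_of_pos hr0]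
    have h2 := norm_le_pi_norm lam i
    have h3 : r * (‖lam‖ + 1) = ρ := by rw [hr]; field_simp
    nlinarith
  have hv : ∀ i, (r • lam i) ⬝ᵥ v = 0 := fun i => by
    rw [smul_dotProduct, hlam, h1]; simp
  choose up hup using fun i => h.cal' (hB (r • lam i) (hv i) (hn1 i))
  choose um hum using fun i => h.cal' (hB (-(r • lam i)) (by rw [neg_dotProduct, hv, neg_zero])
    (by rw [norm_neg]; exact hn1 i))
  obtain ⟨u0, hu0⟩ : ∃ u0 : X → ℝ, ∀ x, 2 * n * u0 x = ∑ i, (up i x + um i x) :=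
    ⟨fun x => (∑ i, (up i x + um i x)) / (2 * n), fun x => by field_simp⟩
  have e0 : ∀ (k : G n X) (x : X), u0 (k +ᵥ x) = u0 x + l₀ ⬝ᵥ cv k := fun k x => by
    have h2 : ∀ i, up i (k +ᵥ x) + um i (k +ᵥ x) = up i x + um i x + 2 * (l₀ ⬝ᵥ cv k) := fun i => by
      rw [(hup i).2, (hum i).2, add_dotProduct, add_dotProduct, neg_dotProduct]; ring
    have h3 := hu0 (k +ᵥ x)
    simp only [h2] at h3
    rw [Finset.sum_add_distrib, ← hu0, Finset.sum_const, Finset.card_univ, Fintype.card_fin,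
      nsmul_eq_mul] at h3
    refine mul_left_cancel₀ (show 2 * (n : ℝ) ≠ 0 by positivity) ?_
    rw [h3]; ring
  obtain ⟨g, hg⟩ : ∃ g : X → E n, ∀ x i, g x i = (up i x - u0 x) / r :=
    ⟨fun x i => (up i x - u0 x) / r, fun _ _ => rfl⟩
  have eg : ∀ (k : G n X) (x : X), g (k +ᵥ x) = g x + cv k - (l₀ ⬝ᵥ cv k) • v := fun k x => by
    ext i
    simp only [Pi.sub_apply, Pi.add_apply, Pi.smul_apply, smul_eq_mul, hg]
    rw [(hup i).2, e0, add_dotProduct, smul_dotProduct, hlam, smul_eq_mul]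
    field_simp
    ring
  refine ⟨fun x => g x + (u0 x - l₀ ⬝ᵥ g x) • v,
    ‖v‖ + (1 + n * ‖l₀‖ * ‖v‖) * ((2 * n + 1) / r) + 1, h1, by positivity, fun k x => ?_,
    fun x y τ hτ => ?_⟩
  · rw [eg, e0, dotProduct_sub, dotProduct_add, dotProduct_smul, h1]
    ext i
    simp only [Pi.sub_apply, Pi.add_apply, Pi.smul_apply, smul_eq_mul]
    ring
  · obtain ⟨m, hm⟩ : ∃ m, m = τ - (u0 y - u0 x) := ⟨_, rfl⟩
    have ha : ∀ i, 0 ≤ τ - (up i y - up i x) := fun i => by linarith [lip_sub (hup i).1 x y]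
    have ha' : ∀ i, 0 ≤ τ - (um i y - um i x) := fun i => by linarith [lip_sub (hum i).1 x y]
    have hs : ∑ i, ((τ - (up i y - up i x)) + (τ - (um i y - um i x))) = 2 * n * m := by
      have h2 : ∀ i, (τ - (up i y - up i x)) + (τ - (um i y - um i x))
          = 2 * τ - (up i y + um i y) + (up i x + um i x) := fun i => by ring
      simp only [h2]
      rw [Finset.sum_add_distrib, Finset.sum_sub_distrib, ← hu0, ← hu0, Finset.sum_const,
        Finset.card_univ, Fintype.card_fin, nsmul_eq_mul, hm]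
      ring
    have hle : ∀ i, τ - (up i y - up i x) ≤ 2 * n * m := fun i => by
      rw [← hs]
      refine le_trans ?_ (Finset.single_le_sum
        (f := fun i => (τ - (up i y - up i x)) + (τ - (um i y - um i x)))
        (fun j _ => add_nonneg (ha j) (ha' j)) (Finset.mem_univ i))
      linarith [ha' i]
    have hm0 : 0 ≤ m := by
      have h2 : 0 ≤ 2 * n * m := by
        rw [← hs]; exact Finset.sum_nonneg fun j _ => add_nonneg (ha j) (ha' j)
      exact nonneg_of_mul_nonneg_right h2 (by positivity)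
    have hd : ‖g y - g x‖ ≤ (2 * n + 1) / r * m := by
      refine (pi_norm_le_iff_of_nonneg (by positivity)).2 fun i => ?_
      have h2 : (g y - g x) i = (m - (τ - (up i y - up i x))) / r := by
        rw [Pi.sub_apply, hg, hg, hm]; ring
      rw [h2, Real.norm_eq_abs, abs_div, abs_of_pos hr0, div_mul_eq_mul_div]
      refine div_le_div_of_nonneg_right (abs_le.2 ⟨?_, ?_⟩) hr0.le
      · linarith [hle i]
      · have : 0 ≤ n * m := by positivity
        linarith [ha i]
    have e1 : τ • v - (g y + (u0 y - l₀ ⬝ᵥ g y) • v - (g x + (u0 x - l₀ ⬝ᵥ g x) • v))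
        = m • v - (g y - g x) + (l₀ ⬝ᵥ (g y - g x)) • v := by
      rw [dotProduct_sub, hm]
      ext i
      simp only [Pi.sub_apply, Pi.add_apply, Pi.smul_apply, smul_eq_mul]
      ring
    have e2 : τ - l₀ ⬝ᵥ (g y + (u0 y - l₀ ⬝ᵥ g y) • v - (g x + (u0 x - l₀ ⬝ᵥ g x) • v)) = m := by
      rw [dotProduct_sub, dotProduct_add, dotProduct_add, dotProduct_smul, dotProduct_smul, h1, hm]
      simp only [smul_eq_mul]
      ring
    rw [e1, e2]
    refine (norm_FR v l₀ _ hm0 hd).trans ?_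
    linarith

end

end Pool.Agent.MP_4d76c1_gt.Gam
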